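import Pool.Agent.H.MP_3e6494_nt.PrimeSum

/-!
# The sum of `1 / √p` over a finite set of primes
-/

set_option autoImplicit false

open Filter Topology

namespace Pool.Agent.H.MP_3e6494_nt

theorem sum_inv_sqrt (N : ℕ) : ∑ n ∈ Finset.range N, (√((n : ℝ) + 1))⁻¹ ≤ 2 * √(N : ℝ) := by
  induction N with
  | zero => simp
  | succ N ih =>
    rw [Finset.sum_range_succ]
    push_cast
    have h1 : 0 < √((N : ℝ) + 1) := Real.sqrt_pos.mpr (by positivity)
    have h2 : √((N : ℝ) + 1) ^ 2 = N + 1 := Real.sq_sqrt (by positivity)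
    have h3 : √(N : ℝ) ^ 2 = N := Real.sq_sqrt (by positivity)
    have h4 : 0 ≤ √(N : ℝ) := Real.sqrt_nonneg _
    have h5 : √(N : ℝ) ≤ √((N : ℝ) + 1) := Real.sqrt_le_sqrt (by linarith)
    have h6 : (√((N : ℝ) + 1))⁻¹ ≤ 2 * (√((N : ℝ) + 1) - √(N : ℝ)) := by
      rw [inv_le_iff_one_le_mul₀ h1]
      nlinarith
    linarith

/-- the sum of `log p / √p` over the primes up to `N` -/
noncomputable def lsq (N : ℕ) : ℝ := ∑ p ∈ prm N, Real.log p / √(p : ℝ)

theorem theta_prm (N : ℕ) : Chebyshev.theta N = ∑ p ∈ prm N, Real.log p := by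
  rw [Chebyshev.theta_eq_sum_primesLE_log]
  refine Finset.sum_congr ?_ fun _ _ => rfl
  ext p
  rw [mem_prm, Nat.mem_primesLE]
  tauto

theorem prm_succ (N : ℕ) : prm (N + 1) = if (N + 1).Prime then insert (N + 1) (prm N) else prm N := by
  ext p
  split_ifs with h
  · rw [Finset.mem_insert, mem_prm, mem_prm]
    constructor
    · rintro ⟨h1, h2⟩
      by_cases h3 : p = N + 1
      · exact Or.inl h3
      · exact Or.inr ⟨h1, by omega⟩
    · rintro (h1 | ⟨h1, h2⟩)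
      · subst h1
        exact ⟨h, le_rfl⟩
      · exact ⟨h1, by omega⟩
  · rw [mem_prm, mem_prm]
    constructor
    · rintro ⟨h1, h2⟩
      by_cases h3 : p = N + 1
      · subst h3
        exact absurd h1 h
      · exact ⟨h1, by omega⟩
    · rintro ⟨h1, h2⟩
      exact ⟨h1, by omega⟩

theorem sum_prm_succ (N : ℕ) (f : ℕ → ℝ) : ∑ p ∈ prm (N + 1), f p =
    ∑ p ∈ prm N, f p + if (N + 1).Prime then f (N + 1) else 0 := by
  rw [prm_succ]
  split_ifs with h
  · rw [Finset.sum_insert, add_comm]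
    rw [mem_prm]
    omega
  · rw [add_zero]

theorem lsq_aux (N : ℕ) : lsq (N + 1) ≤ Chebyshev.theta ((N + 1 : ℕ) : ℝ) * (√((N : ℝ) + 1))⁻¹ +
    Real.log 4 * (∑ n ∈ Finset.range (N + 1), (√((n : ℝ) + 1))⁻¹ -
      ((N : ℝ) + 1) * (√((N : ℝ) + 1))⁻¹) := by
  induction N with
  | zero =>
    have h1 : lsq (0 + 1) = 0 := by
      unfold lsq
      refine Finset.sum_eq_zero fun p hp => ?_
      rw [mem_prm] at hp
      exact absurd hp.1.one_lt (by omega)
    rw [h1]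
    have h2 := Chebyshev.theta_nonneg ((0 + 1 : ℕ) : ℝ)
    simp
  | succ N ih =>
    set c := Real.log 4 with hc
    set a := (√((N : ℝ) + 1))⁻¹ with ha
    set a' := (√(((N + 1 : ℕ) : ℝ) + 1))⁻¹ with ha'
    have ha0 : a' ≤ a := by
      rw [ha, ha']
      have h1 : 0 < √((N : ℝ) + 1) := Real.sqrt_pos.mpr (by positivity)
      apply inv_anti₀ h1
      apply Real.sqrt_le_sqrt
      push_cast
      linarith
    have hth := Chebyshev.theta_le_log4_mul_x (x := ((N + 1 : ℕ) : ℝ)) (by positivity)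
    have h1 : lsq (N + 1 + 1) = lsq (N + 1) +
        (Chebyshev.theta ((N + 1 + 1 : ℕ) : ℝ) - Chebyshev.theta ((N + 1 : ℕ) : ℝ)) * a' := by
      rw [theta_prm, theta_prm, sum_prm_succ (N + 1) (fun p => Real.log p)]
      unfold lsq
      rw [sum_prm_succ (N + 1) (fun p => Real.log p / √(p : ℝ)), ha']
      split_ifs with h
      · push_cast
        ring
      · ring
    rw [h1, Finset.sum_range_succ]
    have h2 : (Chebyshev.theta ((N + 1 : ℕ) : ℝ)) * (a - a') ≤ c * ((N : ℝ) + 1) * (a - a') := by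
      apply mul_le_mul_of_nonneg_right _ (by linarith)
      rw [hc]
      push_cast at hth ⊢
      exact hth
    have h3 : (((N + 1 : ℕ) : ℝ) + 1) * a' = ((N : ℝ) + 1) * a' + a' := by push_cast; ring
    rw [h3]
    generalize Chebyshev.theta ((N + 1 + 1 : ℕ) : ℝ) = T2 at *
    generalize Chebyshev.theta ((N + 1 : ℕ) : ℝ) = T1 at *
    generalize ∑ n ∈ Finset.range (N + 1), (√((n : ℝ) + 1))⁻¹ = S at *
    linarith

theorem lsq_le (N : ℕ) : lsq N ≤ 2 * Real.log 4 * √(N : ℝ) := by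
  rcases Nat.eq_zero_or_pos N with h | h
  · subst h
    have h1 : lsq 0 = 0 := by
      unfold lsq
      refine Finset.sum_eq_zero fun p hp => ?_
      rw [mem_prm] at hp
      exact absurd hp.1.pos (by omega)
    rw [h1]
    simp
  · obtain ⟨M, rfl⟩ : ∃ M, N = M + 1 := ⟨N - 1, by omega⟩
    have h1 := lsq_aux M
    have h2 := sum_inv_sqrt (M + 1)
    have h3 := Chebyshev.theta_le_log4_mul_x (x := ((M + 1 : ℕ) : ℝ)) (by positivity)
    have h4 : 0 < (√((M : ℝ) + 1))⁻¹ := inv_pos.mpr (Real.sqrt_pos.mpr (by positivity))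
    have h5 : 0 < Real.log 4 := Real.log_pos (by norm_num)
    push_cast at *
    nlinarith [mul_le_mul_of_nonneg_right h3 h4.le, mul_le_mul_of_nonneg_left h2 h5.le]

theorem inv_sqrt_le_one {p : ℕ} (hp : 1 ≤ p) : (√(p : ℝ))⁻¹ ≤ 1 := by
  apply inv_le_one_of_one_le₀
  rw [Real.one_le_sqrt]
  exact_mod_cast hp

/-- the sum over a finite set of primes, with two cutoffs -/
theorem sum_E_inv_sqrt (E : Finset ℕ) (hE : ∀ p ∈ E, p.Prime) {y z : ℝ} (hy : 1 < y) (hz : 0 < z) :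
    ∑ p ∈ E, (√(p : ℝ))⁻¹ ≤ y + 2 * Real.log 4 * √z / Real.log y + E.card * (√z)⁻¹ := by
  classical
  have hly : 0 < Real.log y := Real.log_pos hy
  have hsz : 0 < √z := Real.sqrt_pos.mpr hz
  rw [← Finset.sum_filter_add_sum_filter_not E (fun p : ℕ => (p : ℝ) ≤ z)]
  have h1 : ∑ p ∈ E.filter (fun p : ℕ => ¬ (p : ℝ) ≤ z), (√(p : ℝ))⁻¹ ≤ E.card * (√z)⁻¹ := by
    calc _ ≤ ∑ p ∈ E.filter (fun p : ℕ => ¬ (p : ℝ) ≤ z), (√z)⁻¹ := by
          refine Finset.sum_le_sum fun p hp => ?_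
          rw [Finset.mem_filter] at hp
          exact inv_anti₀ hsz (Real.sqrt_le_sqrt (not_le.mp hp.2).le)
      _ = (E.filter (fun p : ℕ => ¬ (p : ℝ) ≤ z)).card * (√z)⁻¹ := by
          rw [Finset.sum_const, nsmul_eq_mul]
      _ ≤ E.card * (√z)⁻¹ := by
          gcongr
          exact Finset.filter_subset _ _
  have h2 : ∑ p ∈ E.filter (fun p : ℕ => (p : ℝ) ≤ z), (√(p : ℝ))⁻¹ ≤
      y + 2 * Real.log 4 * √z / Real.log y := by
    have h3 : E.filter (fun p : ℕ => (p : ℝ) ≤ z) ⊆ prm ⌊z⌋₊ := by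
      intro p hp
      rw [Finset.mem_filter] at hp
      rw [mem_prm]
      exact ⟨hE p hp.1, Nat.le_floor hp.2⟩
    refine (Finset.sum_le_sum_of_subset_of_nonneg h3 fun i _ _ => by positivity).trans ?_
    rw [← Finset.sum_filter_add_sum_filter_not (prm ⌊z⌋₊) (fun p : ℕ => (p : ℝ) ≤ y)]
    apply add_le_add
    · have h4 : (prm ⌊z⌋₊).filter (fun p : ℕ => (p : ℝ) ≤ y) ⊆ Finset.Icc 1 ⌊y⌋₊ := by
        intro p hp
        rw [Finset.mem_filter, mem_prm] at hp
        rw [Finset.mem_Icc]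
        exact ⟨hp.1.1.one_lt.le, Nat.le_floor hp.2⟩
      have h5 := Finset.card_le_card h4
      rw [Nat.card_Icc] at h5
      calc _ ≤ ∑ p ∈ (prm ⌊z⌋₊).filter (fun p : ℕ => (p : ℝ) ≤ y), (1 : ℝ) := by
            refine Finset.sum_le_sum fun p hp => ?_
            rw [Finset.mem_filter, mem_prm] at hp
            exact inv_sqrt_le_one hp.1.1.one_lt.le
        _ = ((prm ⌊z⌋₊).filter (fun p : ℕ => (p : ℝ) ≤ y)).card := by simp
        _ ≤ (⌊y⌋₊ : ℝ) := by exact_mod_cast (by omega)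
        _ ≤ y := Nat.floor_le (by linarith)
    · have h4 : ∑ p ∈ (prm ⌊z⌋₊).filter (fun p : ℕ => ¬ (p : ℝ) ≤ y), (√(p : ℝ))⁻¹ ≤
          (Real.log y)⁻¹ * lsq ⌊z⌋₊ := by
        unfold lsq
        rw [Finset.mul_sum]
        refine (Finset.sum_le_sum (f := fun p : ℕ => (√(p : ℝ))⁻¹)
          (g := fun p : ℕ => (Real.log y)⁻¹ * (Real.log p / √(p : ℝ))) fun p hp => ?_).trans ?_
        · rw [Finset.mem_filter, mem_prm] at hp
          have h6 : Real.log y ≤ Real.log p := Real.log_le_log (by linarith) (not_le.mp hp.2).le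
          have h7 : 0 < √(p : ℝ) := Real.sqrt_pos.mpr (by exact_mod_cast hp.1.1.pos)
          rw [← div_eq_inv_mul, inv_eq_one_div, le_div_iff₀ hly, one_div_mul_eq_div]
          gcongr
        · refine Finset.sum_le_sum_of_subset_of_nonneg (Finset.filter_subset _ _) ?_
          intro p hp _
          rw [mem_prm] at hp
          have : 0 ≤ Real.log (p : ℝ) := Real.log_natCast_nonneg p
          positivity
      refine h4.trans ?_
      have h5 := lsq_le ⌊z⌋₊
      have h6 : √((⌊z⌋₊ : ℕ) : ℝ) ≤ √z := Real.sqrt_le_sqrt (Nat.floor_le hz.le)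
      have h7 : 0 < Real.log 4 := Real.log_pos (by norm_num)
      rw [← div_eq_inv_mul]
      gcongr
      exact h5.trans (by gcongr)
  linarith

/-- the cost of the Euler factors at a set of at most `δ ℓ` primes -/
theorem ev_cost {ε : ℝ} (hε : 0 < ε) : ∃ δ : ℝ, 0 < δ ∧ δ ≤ ε ∧ ∀ᶠ ℓ : ℝ in atTop,
    ∀ E : Finset ℕ, (∀ p ∈ E, p.Prime) → (E.card : ℝ) ≤ δ * ℓ →
      ∏ p ∈ E, (1 + (√(p : ℝ))⁻¹) ≤ Real.exp (ε * √(ℓ / Real.log ℓ)) := by
  set η : ℝ := min (ε / 14) (1 / 2) with hη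
  have hη0 : 0 < η := lt_min (by linarith) (by norm_num)
  have hη1 : η ≤ ε / 14 := min_le_left _ _
  have hη2 : η ≤ 1 / 2 := min_le_right _ _
  set δ : ℝ := η ^ 2 with hδ
  have hδ0 : 0 < δ := by positivity
  refine ⟨δ, hδ0, by nlinarith, ?_⟩
  have h4 : Real.log 4 < 3 / 2 := log_four_lt
  have h40 : 0 < Real.log 4 := Real.log_pos (by norm_num)
  filter_upwards [eventually_ge_atTop (Real.exp 1),
    (isLittleO_log_rpow_atTop (show (0 : ℝ) < 1 / 4 by norm_num)).bound (show 0 < η ^ 4 by positivity),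
    (isLittleO_log_rpow_atTop (show (0 : ℝ) < 1 / 4 by norm_num)).bound (show (0 : ℝ) < 1 by norm_num)]
    with ℓ f1 f2 f3
  have hℓ0 : 0 < ℓ := (Real.exp_pos 1).trans_le f1
  have hL : 1 ≤ Real.log ℓ := by
    rw [← Real.log_exp 1]
    exact Real.log_le_log (Real.exp_pos 1) f1
  have hL0 : 0 < Real.log ℓ := by linarith
  rw [Real.norm_eq_abs, Real.norm_eq_abs, abs_of_nonneg hL0.le, abs_of_nonneg (by positivity)]
    at f2 f3
  intro E hE hcard
  set V := √(ℓ / Real.log ℓ) with hV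
  have hV0 : 0 < V := Real.sqrt_pos.mpr (by positivity)
  -- the cutoffs
  set z : ℝ := δ * (ℓ * Real.log ℓ) with hz
  have hz0 : 0 < z := by positivity
  set y : ℝ := ℓ ^ (1 / 4 : ℝ) with hy
  have hly : Real.log y = 1 / 4 * Real.log ℓ := by rw [hy, Real.log_rpow hℓ0]
  have hy1 : 1 < y := by
    rw [hy]
    have he : 1 < ℓ := by
      have := Real.exp_one_gt_d9
      linarith
    exact Real.one_lt_rpow he (by norm_num)
  have hsz : √z = η * (V * Real.log ℓ) := by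
    rw [hz, hδ, Real.sqrt_mul (by positivity), Real.sqrt_sq hη0.le, hV]
    congr 1
    have h5 : ℓ * Real.log ℓ = ℓ / Real.log ℓ * (Real.log ℓ) ^ 2 := by
      field_simp
    rw [h5, Real.sqrt_mul (by positivity), Real.sqrt_sq hL0.le]
  have hVV : V * V = ℓ / Real.log ℓ := Real.mul_self_sqrt (by positivity)
  have hyV : y ≤ η * V := by
    have h5 : y ^ 2 ≤ (η * V) ^ 2 := by
      have h6 : y ^ 2 * Real.log ℓ ≤ η ^ 2 * ℓ := by
        have h7 : y ^ 2 = ℓ ^ (1 / 2 : ℝ) := by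
          rw [hy, ← Real.rpow_natCast, ← Real.rpow_mul hℓ0.le]
          norm_num
        have h8 : ℓ ^ (1 / 2 : ℝ) * ℓ ^ (1 / 4 : ℝ) ≤ ℓ := by
          rw [← Real.rpow_add hℓ0]
          calc ℓ ^ (1 / 2 + 1 / 4 : ℝ) ≤ ℓ ^ (1 : ℝ) := by
                apply Real.rpow_le_rpow_of_exponent_le _ (by norm_num)
                have := Real.exp_one_gt_d9
                linarith
            _ = ℓ := Real.rpow_one ℓ
        rw [h7]
        calc ℓ ^ (1 / 2 : ℝ) * Real.log ℓ ≤ ℓ ^ (1 / 2 : ℝ) * (η ^ 4 * ℓ ^ (1 / 4 : ℝ)) := by gcongr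
          _ = η ^ 4 * (ℓ ^ (1 / 2 : ℝ) * ℓ ^ (1 / 4 : ℝ)) := by ring
          _ ≤ η ^ 4 * ℓ := by gcongr
          _ ≤ η ^ 2 * ℓ := by
            have : η ^ 4 ≤ η ^ 2 := by
              have h9 : η ^ 2 ≤ 1 := by nlinarith
              nlinarith [sq_nonneg η]
            gcongr
      rw [mul_pow, sq V, hVV, ← mul_div_assoc, le_div_iff₀ hL0]
      exact h6
    exact (sq_le_sq₀ (by positivity) (by positivity)).mp h5
  have h1 := sum_E_inv_sqrt E hE hy1 hz0
  have h2 : 2 * Real.log 4 * √z / Real.log y ≤ 12 * (η * V) / 1 := by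
    rw [hsz, hly, div_one, div_le_iff₀ (by positivity)]
    have h5 : 0 < η * V * Real.log ℓ := by positivity
    nlinarith
  have h3 : (E.card : ℝ) * (√z)⁻¹ ≤ η * V := by
    rw [← div_eq_mul_inv, div_le_iff₀ (by rw [hsz]; positivity), hsz]
    refine hcard.trans (le_of_eq ?_)
    have h5 : η * V * (η * (V * Real.log ℓ)) = η ^ 2 * (V * V) * Real.log ℓ := by ring
    rw [h5, hVV, hδ]
    field_simp
  have h5 : ∏ p ∈ E, (1 + (√(p : ℝ))⁻¹) ≤ Real.exp (∑ p ∈ E, (√(p : ℝ))⁻¹) := by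
    rw [Real.exp_sum]
    refine Finset.prod_le_prod (fun p _ => by positivity) fun p _ => ?_
    have := Real.add_one_le_exp ((√(p : ℝ))⁻¹)
    linarith
  refine h5.trans (Real.exp_le_exp.mpr ?_)
  have h6 : 0 < η * V := by positivity
  have h7 : 14 * (η * V) ≤ ε * V := by
    have h8 : 14 * η ≤ ε := by linarith
    calc 14 * (η * V) = 14 * η * V := by ring
      _ ≤ ε * V := mul_le_mul_of_nonneg_right h8 hV0.le
  linarith

end Pool.Agent.H.MP_3e6494_nt
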