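import Pool.Agent.H.MP_3e6494_nt.Gen4
import Pool.Agent.H.MP_3e6494_nt.h26.PrimeSqrt

/-!
# The general theorem with a larger exceptional set
-/

set_option autoImplicit false

open Complex Set Filter Topology

namespace Pool.Agent.H.MP_3e6494_nt

noncomputable section

variable {n m k : ℕ} {ε ℓ : ℝ} {E : Finset ℕ}

theorem Good.small7 (g : Good n m k ε ℓ) (hε0 : 0 < ε) (hε1 : ε < 1) :
    ε / 36 * ℓ ≤ ℓ := by
  have hl : 0 < ℓ := by linarith [g.e1]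
  nlinarith

theorem Good.Si_ge3 (g : Good n m k ε ℓ) (hmn : m + 2 ≤ n) (hε0 : 0 < ε) (hε1 : ε < 1)
    (hE : (E.card : ℝ) ≤ ε / 36 * ℓ) {i : ℕ} (hi : i ∈ Finset.Icc 1 m) :
    (1 - ε) * (n / (i * ((i : ℝ) + 1))) * Real.log ℓ ≤ Si E n ℓ i := by
  have hi1 := (Finset.mem_Icc.mp hi).1
  have hi0 : (0 : ℝ) < i := by exact_mod_cast hi1
  have hn0 : (0 : ℝ) < n := by
    have : 0 < n := by omega
    exact_mod_cast this
  have hX := g.Xi_ge hmn hi
  have h16 := g.e1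
  have h1 := win_lower (E := E) (x := Xi n ℓ i) (y := Yi n ℓ i) (by linarith)
    (g.Xi_le_Yi hi1) (by have := Real.exp_one_lt_d9; linarith)
  have h2 : (E.card : ℝ) * (Real.log (Xi n ℓ i) / Xi n ℓ i) ≤ 1 := by
    have h3 := g.small hε0 hmn hi
    have h4 : 0 ≤ Real.log (Xi n ℓ i) / Xi n ℓ i :=
      div_nonneg (Real.log_nonneg (by linarith)) (by linarith)
    have h5 : (E.card : ℝ) ≤ ℓ := hE.trans (g.small7 hε0 hε1)
    calc _ ≤ ℓ * (Real.log (Xi n ℓ i) / Xi n ℓ i) := by gcongr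
      _ ≤ ε / 4 := h3
      _ ≤ 1 := by linarith
  rw [g.log_Xi, g.log_Yi] at h1
  rw [g.log_Xi] at h2
  have h3 := g.c5 i hi
  rw [div_le_iff₀ (by positivity)] at h3
  have h4 : (n : ℝ) / i * Real.log ℓ - n / (i + 1) * Real.log ℓ =
      (n / (i * ((i : ℝ) + 1))) * Real.log ℓ := by
    field_simp
    ring
  unfold Si Wi
  linarith

theorem Good.Si_pos3 (g : Good n m k ε ℓ) (hmn : m + 2 ≤ n) (hε0 : 0 < ε) (hε1 : ε < 1)
    (hE : (E.card : ℝ) ≤ ε / 36 * ℓ) {i : ℕ} (hi : i ∈ Finset.Icc 1 m) : 1 ≤ Si E n ℓ i := by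
  have hi1 := (Finset.mem_Icc.mp hi).1
  have hi0 : (0 : ℝ) < i := by exact_mod_cast hi1
  have hn0 : (0 : ℝ) < n := by
    have : 0 < n := by omega
    exact_mod_cast this
  have h3 := g.c5 i hi
  rw [div_le_iff₀ (by positivity)] at h3
  have h16 := g.e1
  have hX := g.Xi_ge hmn hi
  have h1 := win_lower (E := E) (x := Xi n ℓ i) (y := Yi n ℓ i) (by linarith)
    (g.Xi_le_Yi hi1) (by have := Real.exp_one_lt_d9; linarith)
  have h2 : (E.card : ℝ) * (Real.log (Xi n ℓ i) / Xi n ℓ i) ≤ ε / 4 := by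
    have h3 := g.small hε0 hmn hi
    have h4 : 0 ≤ Real.log (Xi n ℓ i) / Xi n ℓ i :=
      div_nonneg (Real.log_nonneg (by linarith)) (by linarith)
    have h5 : (E.card : ℝ) ≤ ℓ := hE.trans (g.small7 hε0 hε1)
    calc _ ≤ ℓ * (Real.log (Xi n ℓ i) / Xi n ℓ i) := by gcongr
      _ ≤ ε / 4 := h3
  rw [g.log_Xi, g.log_Yi] at h1
  rw [g.log_Xi] at h2
  have h4 : (n : ℝ) / i * Real.log ℓ - n / (i + 1) * Real.log ℓ =
      (n / (i * ((i : ℝ) + 1))) * Real.log ℓ := by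
    field_simp
    ring
  have h5 : 0 < (n / (i * ((i : ℝ) + 1))) * Real.log ℓ := by
    have := g.e2
    positivity
  have h6 : 26 ≤ (n / (i * ((i : ℝ) + 1))) * Real.log ℓ := by
    nlinarith
  unfold Si Wi
  linarith

theorem Good.rho_ge3 (g : Good n m k ε ℓ) (hm : 1 ≤ m) (hmn : m + 2 ≤ n) (hε0 : 0 < ε)
    (hε1 : ε < 1) (hE : (E.card : ℝ) ≤ ε / 36 * ℓ) {i : ℕ} (hi : i ∈ Finset.Icc 1 m) :
    1 ≤ rho E n m ε ℓ i := by
  unfold rho
  have h1 := g.Si_pos3 hmn hε0 hε1 hE hi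
  have h2 := g.wi_ge hm hmn hε0 hε1 hi
  have h3 : Si E n ℓ i ≤ n * Real.log ℓ + 2 := g.Si_le hi
  have h4 := g.c3
  have h5 := g.c3'
  have hn0 : (0 : ℝ) < n := by
    have : 0 < n := by omega
    exact_mod_cast this
  have h6 : n * Real.log ℓ ≤ ℓ ^ (1 - ε / 8) / 2 := by
    calc n * Real.log ℓ ≤ n * (1 / (2 * n) * ℓ ^ (1 - ε / 8)) := by gcongr
      _ = _ := by field_simp
  rw [le_div_iff₀ (by linarith)]
  have h7 : (0 : ℝ) ≤ wi n m ε ℓ i := by positivity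
  nlinarith

theorem Good.rho_log3 (g : Good n m k ε ℓ) (hmn : m + 2 ≤ n) (hε0 : 0 < ε)
    (hε1 : ε < 1) (hE : (E.card : ℝ) ≤ ε / 36 * ℓ) {i : ℕ} (hi : i ∈ Finset.Icc 1 m)
    {p : ℕ} (hp : p ∈ Wi E n ℓ i) :
    (1 - ε) * (rho E n m ε ℓ i * Real.log p) ≤ (1 + ε) * wi n m ε ℓ i * ((i : ℝ) + 1) := by
  unfold rho
  have h1 := g.Si_pos3 hmn hε0 hε1 hE hi
  have h2 := g.Si_ge3 hmn hε0 hε1 hE hi
  rw [g.mem_Wi] at hp
  have hi0 : (0 : ℝ) < i := by exact_mod_cast (Finset.mem_Icc.mp hi).1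
  have hp0 : (0 : ℝ) < p := by exact_mod_cast hp.1.pos
  have h3 : Real.log p ≤ n / i * Real.log ℓ := by
    rw [← g.log_Yi]
    exact Real.log_le_log hp0 hp.2.2.1
  have h4 : (1 - ε) * Real.log p ≤ ((i : ℝ) + 1) * Si E n ℓ i := by
    calc (1 - ε) * Real.log p ≤ (1 - ε) * (n / i * Real.log ℓ) := by
          have : 0 ≤ 1 - ε := by linarith
          gcongr
      _ = ((i : ℝ) + 1) * ((1 - ε) * (n / (i * ((i : ℝ) + 1))) * Real.log ℓ) := by
          field_simp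
      _ ≤ _ := by gcongr
  have hw : (0 : ℝ) ≤ wi n m ε ℓ i := by positivity
  calc (1 - ε) * ((1 + ε) * wi n m ε ℓ i / Si E n ℓ i * Real.log p)
      = (1 + ε) * wi n m ε ℓ i / Si E n ℓ i * ((1 - ε) * Real.log p) := by ring
    _ ≤ (1 + ε) * wi n m ε ℓ i / Si E n ℓ i * (((i : ℝ) + 1) * Si E n ℓ i) := by
        have h5 : 0 < Si E n ℓ i := by linarith
        gcongr
    _ = _ := by
        have h5 : Si E n ℓ i ≠ 0 := by linarith
        field_simp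

theorem Good.rr_sq3 (g : Good n m k ε ℓ) (hm : 1 ≤ m) (hmn : m + 2 ≤ n) (hε0 : 0 < ε)
    (hε1 : ε < 1) (hE : (E.card : ℝ) ≤ ε / 36 * ℓ) {i : ℕ} (hi : i ∈ Finset.Icc 1 m)
    {p : ℕ} (hp : p ∈ Wi E n ℓ i) :
    rr E n m ε ℓ p ^ 2 = rho E n m ε ℓ i * (Real.log p / p) := by
  have h1 := g.rho_ge3 hm hmn hε0 hε1 hE hi
  rw [g.rr_eq hi hp, Real.sq_sqrt]
  have h2 := ((g.mem_Wi).mp hp).1.one_lt
  exact mul_nonneg (by linarith)
    (div_nonneg (Real.log_nonneg (by exact_mod_cast h2.le)) (by positivity))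

theorem Good.rr_sq_le3 (g : Good n m k ε ℓ) (hm : 1 ≤ m) (hmn : m + 2 ≤ n) (hε0 : 0 < ε)
    (hε1 : ε < 1) (hE : (E.card : ℝ) ≤ ε / 36 * ℓ) {i : ℕ} (hi : i ∈ Finset.Icc 1 m)
    {p : ℕ} (hp : p ∈ Wi E n ℓ i) :
    rr E n m ε ℓ p ^ 2 ≤ ℓ / p := by
  rw [g.rr_sq3 hm hmn hε0 hε1 hE hi hp]
  have h1 := g.rho_log3 hmn hε0 hε1 hE hi hp
  have h2 := g.wi_le hm hmn hε0 hε1 hi
  have h3 := g.c12 i hi
  have hp0 : (0 : ℝ) < p := by exact_mod_cast ((g.mem_Wi).mp hp).1.pos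
  rw [← mul_div_assoc]
  refine div_le_div_of_nonneg_right ?_ hp0.le
  have h4 : 0 < 1 - ε := by linarith
  have hL : 0 < Real.log ℓ := by linarith [g.e2]
  have hl : 0 < ℓ := by linarith [g.e1]
  have h5 : (1 - ε) * (rho E n m ε ℓ i * Real.log p) ≤ (1 - ε) * ℓ := by
    refine h1.trans ?_
    calc (1 + ε) * wi n m ε ℓ i * ((i : ℝ) + 1)
        ≤ (1 + ε) * (nu n m ε i * ℓ / Real.log ℓ) * ((i : ℝ) + 1) := by gcongr
      _ = (1 - ε) * (((1 + ε) / (1 - ε) * (((i : ℝ) + 1) * nu n m ε i)) / Real.log ℓ * ℓ) := by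
          field_simp
      _ ≤ (1 - ε) * (1 * ℓ) := by
          gcongr
          rw [div_le_one hL]
          exact h3
      _ = (1 - ε) * ℓ := by ring
  exact le_of_mul_le_mul_left h5 h4

theorem Good.sys3 (g : Good n m k ε ℓ) (hm : 1 ≤ m) (hmn : m + 2 ≤ n) (hε0 : 0 < ε)
    (hε1 : ε < 1) (hk : 1 ≤ ε / 2 * (1 + ε / 2) ^ k) (hE : (E.card : ℝ) ≤ ε / 36 * ℓ) :
    Sys E (Finset.Icc 1 m) (Wi E n ℓ) (wi n m ε ℓ) (fun i => ⌊Yi n ℓ i⌋₊) (rr E n m ε ℓ)
      (xx n m ε ℓ) (mu E n m ε ℓ) (1 + ε / 2) k where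
  disj := fun i _ j _ hij => g.disj hij
  prime := fun i _ p hp => ((g.mem_Wi).mp hp).1
  notE := fun i _ p hp => ((g.mem_Wi).mp hp).2.2.2
  le := fun i _ p hp => Nat.le_floor ((g.mem_Wi).mp hp).2.2.1
  Ypos := fun i _ => Nat.le_floor (by simpa using g.Yi_one i)
  rnn := fun p => rr_nonneg p
  rbig := by
    intro i hi p hp
    have hr := g.rho_ge3 hm hmn hε0 hε1 hE hi
    have hp' := (g.mem_Wi).mp hp
    have hp0 : (0 : ℝ) < p := by exact_mod_cast hp'.1.pos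
    rw [g.rr_eq hi hp, ← Real.sqrt_mul', Real.one_le_sqrt]
    · rw [mul_assoc, div_mul_cancel₀ _ hp0.ne']
      have h1 : 1 ≤ Real.log p := by
        have h2 := g.Xi_ge hmn hi
        exact g.e2.trans (Real.log_le_log (by linarith [g.e1]) (by linarith [hp'.2.1]))
      nlinarith
    · exact hp0.le
  xnn := fun i _ => Real.sqrt_nonneg _
  rx := by
    intro i hi p hp
    have hr := g.rho_ge3 hm hmn hε0 hε1 hE hi
    have hrl := g.rho_log3 hmn hε0 hε1 hE hi hp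
    have hp' := (g.mem_Wi).mp hp
    have hp0 : (0 : ℝ) < p := by exact_mod_cast hp'.1.pos
    have hw : 0 < (wi n m ε ℓ i : ℝ) := by
      have := g.wi_ge hm hmn hε0 hε1 hi
      linarith [g.c3']
    rw [g.rr_eq hi hp, ← Real.sqrt_mul' _ hp0.le, mul_assoc, div_mul_cancel₀ _ hp0.ne']
    unfold xx
    rw [← Real.sqrt_mul (div_nonneg (by linarith) (by positivity)), Real.sqrt_le_one,
      div_mul_eq_mul_div, div_le_one (by positivity)]
    linarith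
  μnn := by
    intro i hi
    have hr := g.rho_ge3 hm hmn hε0 hε1 hE hi
    have hX := g.Xi_ge hmn hi
    have := g.e1
    exact mul_nonneg (by linarith) (div_nonneg (Real.log_nonneg (by linarith)) (by linarith))
  rμ := by
    intro i hi p hp
    have hr := g.rho_ge3 hm hmn hε0 hε1 hE hi
    rw [g.rr_sq3 hm hmn hε0 hε1 hE hi hp]
    unfold mu
    refine mul_le_mul_of_nonneg_left ?_ (by linarith)
    have hX := g.Xi_ge hmn hi
    have h16 := g.e1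
    have he := Real.exp_one_lt_d9
    have hp' := (g.mem_Wi).mp hp
    have hX3 : Real.exp 1 ≤ Xi n ℓ i := by linarith
    exact Real.log_div_self_antitoneOn hX3 (hX3.trans hp'.2.1.le) hp'.2.1.le
  θ1 := by linarith
  grow := by
    intro i hi
    have hS := g.Si_pos3 hmn hε0 hε1 hE hi
    have h1 : ∑ p ∈ Wi E n ℓ i, rr E n m ε ℓ p ^ 2 = (1 + ε) * wi n m ε ℓ i := by
      rw [Finset.sum_congr rfl fun p hp => g.rr_sq3 hm hmn hε0 hε1 hE hi hp, ← Finset.mul_sum]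
      change rho E n m ε ℓ i * Si E n ℓ i = _
      unfold rho
      rw [div_mul_cancel₀]
      linarith
    have h2 : mu E n m ε ℓ i ≤ ε / 2 := by
      unfold mu rho
      have h3 := g.small hε0 hmn hi
      have h4 := g.wi_le_l hm hmn hε0 hε1 hi
      have hX := g.Xi_ge hmn hi
      have h16 := g.e1
      have h5 : 0 ≤ Real.log (Xi n ℓ i) / Xi n ℓ i :=
        div_nonneg (Real.log_nonneg (by linarith)) (by linarith)
      calc (1 + ε) * wi n m ε ℓ i / Si E n ℓ i * (Real.log (Xi n ℓ i) / Xi n ℓ i)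
          ≤ (1 + ε) * ℓ / 1 * (Real.log (Xi n ℓ i) / Xi n ℓ i) := by
            gcongr
        _ = (1 + ε) * (ℓ * (Real.log (Xi n ℓ i) / Xi n ℓ i)) := by ring
        _ ≤ 2 * (ε / 4) := by
            gcongr
            linarith
        _ = ε / 2 := by ring
    rw [h1]
    have hw : (0 : ℝ) ≤ wi n m ε ℓ i := by positivity
    nlinarith
  hk := by
    rw [show 1 + ε / 2 - 1 = ε / 2 by ring]
    exact hk
  kw := by
    intro i hi
    have h1 := g.wi_ge hm hmn hε0 hε1 hi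
    have h2 := g.c2
    have h3 : (k : ℝ) ≤ wi n m ε ℓ i := by linarith
    exact_mod_cast h3

theorem Good.size3 (g : Good n m k ε ℓ) (hm : 1 ≤ m) (hmn : m + 2 ≤ n) (hε0 : 0 < ε)
    (hε1 : ε < 1) (hE : (E.card : ℝ) ≤ ε / 36 * ℓ) {d : ℕ} (hd0 : 0 < d)
    (hd : Real.log d ≤ ε / 36 * ℓ) {q : ℕ} (hq : Real.log q = ℓ) (hq0 : 0 < q) {N C0 : ℕ}
    (hN : N = ∏ i ∈ Finset.Icc 1 m, ⌊Yi n ℓ i⌋₊ ^ wi n m ε ℓ i)
    (hC0 : C0 = (40 * 2 ^ E.card * d * (fam (Finset.Icc 1 m) (Wi E n ℓ) (wi n m ε ℓ)).card) ^ 2) :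
    C0 * N * N < q := by
  set I := Finset.Icc 1 m with hI
  set Fc := (fam I (Wi E n ℓ) (wi n m ε ℓ)).card with hFc
  have hl : 0 < ℓ := by linarith [g.e1]
  have hL : 0 < Real.log ℓ := by linarith [g.e2]
  have hNr : (N : ℝ) ≤ Real.exp (∑ i ∈ I, wi n m ε ℓ i * (n / i * Real.log ℓ)) := by
    rw [hN, Real.exp_sum]
    push_cast
    refine Finset.prod_le_prod (fun i _ => by positivity) ?_
    intro i hi
    have hY := g.Yi_one i
    rw [Real.exp_nat_mul, ← g.log_Yi, Real.exp_log (by linarith)]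
    gcongr
    exact Nat.floor_le (by linarith)
  have hFr : (Fc : ℝ) ≤ Real.exp (∑ i ∈ I, wi n m ε ℓ i *
      (1 + (n / i * Real.log ℓ - Real.log (wi n m ε ℓ i)))) := by
    rw [hFc, card_fam (fun i _ j _ hij => g.disj hij), Real.exp_sum]
    refine Finset.prod_le_prod (fun i _ => by positivity) ?_
    intro i hi
    have hw := g.wi_ge hm hmn hε0 hε1 hi
    have hwl := g.wi_le_l hm hmn hε0 hε1 hi
    have h1 : (1 : ℝ) ≤ wi n m ε ℓ i := by linarith [g.c3']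
    rw [← g.log_Yi]
    refine card_cap_le (by exact_mod_cast h1) ?_ ?_
    · refine hwl.trans ((g.Xi_ge hmn hi).trans (g.Xi_le_Yi (Finset.mem_Icc.mp hi).1))
    · exact card_win_le (by linarith [g.Yi_one i])
  have hEr : Real.exp (E.card * Real.log 2) = ((2 : ℝ) ^ E.card) := by
    rw [Real.exp_nat_mul, Real.exp_log (by norm_num)]
  have hdr : Real.exp (Real.log d) = (d : ℝ) := Real.exp_log (by exact_mod_cast hd0)
  have h40 : (40 : ℝ) ≤ Real.exp 4 := by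
    have := log_forty
    rw [Real.log_lt_iff_lt_exp (by norm_num)] at this
    exact this.le
  have hT : ((40 * 2 ^ E.card * d * Fc * N : ℕ) : ℝ) ≤ Real.exp (4 + E.card * Real.log 2 +
      Real.log d + ∑ i ∈ I, wi n m ε ℓ i * (1 + (n / i * Real.log ℓ - Real.log (wi n m ε ℓ i))) +
      ∑ i ∈ I, wi n m ε ℓ i * (n / i * Real.log ℓ)) := by
    rw [Real.exp_add, Real.exp_add, Real.exp_add, Real.exp_add, hEr, hdr]
    push_cast
    gcongr
  have hsum : ∑ i ∈ I, wi n m ε ℓ i * (1 + (n / i * Real.log ℓ - Real.log (wi n m ε ℓ i))) +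
      ∑ i ∈ I, wi n m ε ℓ i * (n / i * Real.log ℓ) ≤ ℓ / 2 * (1 - ε + ε / 4) := by
    rw [← Finset.sum_add_distrib]
    have h1 : ∀ i ∈ I, wi n m ε ℓ i * (1 + (n / i * Real.log ℓ - Real.log (wi n m ε ℓ i))) +
        wi n m ε ℓ i * (n / i * Real.log ℓ) ≤
        ℓ / 2 * (nu n m ε i * cc n i + ε / 4 * (nu n m ε i * cc n i)) := by
      intro i hi
      have hw := g.wi_ge hm hmn hε0 hε1 hi
      have hwle := g.wi_le hm hmn hε0 hε1 hi
      have hc := cc_ge (n := n) (Finset.mem_Icc.mp hi).1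
        (by have := (Finset.mem_Icc.mp hi).2; omega)
      have hnu := nu_pos hm hmn hε1 hi
      have h2 : (1 - ε / 8) * Real.log ℓ ≤ Real.log (wi n m ε ℓ i) := by
        rw [← Real.log_rpow hl]
        exact Real.log_le_log (by positivity) hw
      have h3 : 1 ≤ ε / 8 * Real.log ℓ := by
        have := g.c8
        rw [div_le_iff₀ hε0] at this
        linarith
      have hw0 : (0 : ℝ) ≤ wi n m ε ℓ i := by positivity
      have h4 : wi n m ε ℓ i * (1 + (n / i * Real.log ℓ - Real.log (wi n m ε ℓ i))) +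
          wi n m ε ℓ i * (n / i * Real.log ℓ) ≤
          wi n m ε ℓ i * (Real.log ℓ * (cc n i / 2 + ε / 4)) := by
        rw [← mul_add]
        refine mul_le_mul_of_nonneg_left ?_ hw0
        unfold cc
        have : Real.log ℓ * ((4 * n / i - 2) / 2 + ε / 4) =
            n / i * Real.log ℓ + n / i * Real.log ℓ - Real.log ℓ + ε / 4 * Real.log ℓ := by ring
        rw [this]
        linarith
      refine h4.trans ?_
      rw [le_div_iff₀ hL] at hwle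
      calc wi n m ε ℓ i * (Real.log ℓ * (cc n i / 2 + ε / 4))
          = (wi n m ε ℓ i * Real.log ℓ) * (cc n i / 2 + ε / 4) := by ring
        _ ≤ (nu n m ε i * ℓ) * (cc n i / 2 + ε / 4) := by gcongr
        _ ≤ _ := by
          have h5 : 0 < nu n m ε i * ℓ := by positivity
          nlinarith [mul_pos h5 hε0, mul_nonneg (mul_pos h5 hε0).le (by linarith : 0 ≤ cc n i - 2)]
    refine (Finset.sum_le_sum h1).trans ?_
    rw [← Finset.mul_sum, Finset.sum_add_distrib, ← Finset.mul_sum, nu_sum hm hmn]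
    have : 1 - ε + ε / 4 * (1 - ε) ≤ 1 - ε + ε / 4 := by nlinarith
    gcongr
  have hsmall : 4 + E.card * Real.log 2 + Real.log d ≤ ℓ / 2 * (ε / 2) := by
    have h2 : (E.card : ℝ) * Real.log 2 ≤ E.card * 1 := by
      have h3 := Real.log_two_lt_d9
      gcongr
      linarith
    have h3 := g.c7'
    rw [div_le_iff₀ hε0] at h3
    nlinarith
  have hT2 : ((40 * 2 ^ E.card * d * Fc * N : ℕ) : ℝ) ^ 2 < q := by
    refine lt_of_lt_of_eq (b := Real.exp ℓ) ?_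
      (by rw [← hq, Real.exp_log (by exact_mod_cast hq0)])
    refine lt_of_le_of_lt (pow_le_pow_left₀ (by positivity) hT 2) ?_
    rw [← Real.exp_nat_mul, Real.exp_lt_exp]
    push_cast
    nlinarith [mul_pos hl hε0]
  have hfin : C0 * N * N = (40 * 2 ^ E.card * d * Fc * N) ^ 2 := by
    rw [hC0]
    ring
  rw [hfin]
  exact_mod_cast hT2

theorem Good.final3 (g : Good n m k ε ℓ) (hm : 1 ≤ m) (hmn : m + 2 ≤ n) (hε0 : 0 < ε)
    (hε1 : ε < 1) (hcost : ∏ p ∈ E, (1 + (√(p : ℝ))⁻¹) ≤ Real.exp (ε / 2 * √(ℓ / Real.log ℓ))) {Λ : ℝ}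
    (hΛ0 : 0 ≤ Λ)
    (h : ∏ i ∈ Finset.Icc 1 m, ((1 + xx n m ε ℓ i) ^ (wi n m ε ℓ i - k) / 2) ≤
      2 * (Λ * ∏ p ∈ E, (1 + (√(p : ℝ))⁻¹))) :
    Real.exp (((1 - ε) ^ 2 * √(ZZ n m) - ε) * √(ℓ / Real.log ℓ)) ≤ Λ := by
  have hl : 0 < ℓ := by linarith [g.e1]
  have hL : 0 < Real.log ℓ := by linarith [g.e2]
  set V := √(ℓ / Real.log ℓ) with hV
  have hV0 : 0 ≤ V := Real.sqrt_nonneg _
  have h1 : Real.exp ((1 - ε) * (√(1 - ε) * √(ZZ n m)) * V - m * (k + 3)) ≤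
      ∏ i ∈ Finset.Icc 1 m, ((1 + xx n m ε ℓ i) ^ (wi n m ε ℓ i - k) / 2) := by
    have h2 : (1 - ε) * (√(1 - ε) * √(ZZ n m)) * V - m * (k + 3) =
        ∑ i ∈ Finset.Icc 1 m,
          ((1 - ε) * √(nu n m ε i / ((i : ℝ) + 1)) * V - (k + 3)) := by
      rw [Finset.sum_sub_distrib, ← Finset.sum_mul, ← Finset.mul_sum, nu_sqrt_sum hm hmn hε1,
        Finset.sum_const, nsmul_eq_mul]
      simp
    rw [h2, Real.exp_sum]
    exact Finset.prod_le_prod (fun i _ => (Real.exp_pos _).le)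
      fun i hi => g.term hm hmn hε0 hε1 hi
  have h2 := hcost
  have h3 : Real.exp ((1 - ε) * (√(1 - ε) * √(ZZ n m)) * V - m * (k + 3)) ≤
      Real.exp 1 * (Λ * Real.exp (ε / 2 * V)) := by
    refine h1.trans (h.trans ?_)
    have he := Real.exp_one_gt_d9
    gcongr
    linarith
  have h4 : Real.exp ((1 - ε) * (√(1 - ε) * √(ZZ n m)) * V - m * (k + 3) - 1 -
      ε / 2 * V) ≤ Λ := by
    rw [Real.exp_sub _ (ε / 2 * V), Real.exp_sub _ 1, div_div, div_le_iff₀ (by positivity)]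
    linarith
  refine le_trans (Real.exp_le_exp.mpr ?_) h4
  -- compare the exponents
  have hsq : (1 - ε) ≤ √(1 - ε) := by
    refine Real.le_sqrt_of_sq_le ?_
    nlinarith
  have hZ := Real.sqrt_nonneg (ZZ n m)
  have h5 : (1 - ε) ^ 2 * √(ZZ n m) * V ≤ (1 - ε) * (√(1 - ε) * √(ZZ n m)) * V := by
    have h6 : 0 ≤ √(ZZ n m) * V := by positivity
    have h7 : (1 - ε) ^ 2 ≤ (1 - ε) * √(1 - ε) := by
      rw [sq]
      exact mul_le_mul_of_nonneg_left hsq (by linarith)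
    nlinarith [mul_le_mul_of_nonneg_right h7 h6]
  -- the error terms
  have h10 : (m : ℝ) * (k + 3) + 1 ≤ ε / 2 * V := by
    have hm0 : (0 : ℝ) ≤ m := by positivity
    have hk0 : (0 : ℝ) ≤ k := by positivity
    set M : ℝ := m * (k + 3) + m + 1 with hM
    have hM0 : 0 < M := by positivity
    have h11 : 2 * M / ε ≤ V := by
      rw [hV]
      refine Real.le_sqrt_of_sq_le ?_
      rw [le_div_iff₀ hL]
      have h12 := g.c10'
      rw [Real.rpow_one] at h12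
      calc (2 * M / ε) ^ 2 * Real.log ℓ ≤ (2 * M / ε) ^ 2 * ((ε / (2 * M)) ^ 2 * ℓ) := by
            gcongr
        _ = ℓ := by
            field_simp
    have h13 : M ≤ ε / 2 * V := by
      rw [div_le_iff₀ hε0] at h11
      linarith
    linarith
  nlinarith

/-- **The general theorem.** -/
theorem gen3 {n m : ℕ} (hm : 1 ≤ m) (hmn : m + 2 ≤ n) {ε : ℝ} (hε0 : 0 < ε) (hε1 : ε < 1) :
    ∃ δ : ℝ, 0 < δ ∧ ∃ q₀ : ℕ, ∀ (q : ℕ) [Fact q.Prime], q₀ ≤ q → ∀ (H : Subgroup (DirichletCharacter ℂ q))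
      (χ₀ : DirichletCharacter ℂ q) (E : Finset ℕ), (∀ p ∈ E, p.Prime ∧ p < q) →
      (E.card : ℝ) ≤ δ * Real.log q → Real.log H.index ≤ δ * Real.log q →
      RelBound q (KK H) E n m →
      ∃ ψ ∈ H, Real.exp (((1 - ε) ^ 2 * √(ZZ n m) - ε) *
        √(Real.log q / Real.log (Real.log q))) ≤ ‖(χ₀ * ψ).LFunction (1 / 2)‖ := by
  -- choice of `k`
  obtain ⟨k, hk⟩ : ∃ k : ℕ, 1 ≤ ε / 2 * (1 + ε / 2) ^ k := by
    obtain ⟨k, hk⟩ := pow_unbounded_of_one_lt (2 / ε) (by linarith : 1 < 1 + ε / 2)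
    refine ⟨k, ?_⟩
    rw [div_lt_iff₀ hε0] at hk
    linarith
  obtain ⟨δ₀, hδ₀, -, hcost⟩ := ev_cost (show 0 < ε / 2 by positivity)
  have hev := (eventually_good k hm hmn hε0 hε1).and hcost
  have hlog : Tendsto (fun q : ℕ => Real.log (q : ℝ)) atTop atTop :=
    Real.tendsto_log_atTop.comp tendsto_natCast_atTop_atTop
  obtain ⟨q₀, hq₀⟩ := Filter.eventually_atTop.mp (hlog.eventually hev)
  refine ⟨min δ₀ (ε / 36), lt_min hδ₀ (by positivity), q₀, ?_⟩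
  intro q hq hqq H χ₀ E hE hEc' hd' hrel
  have g : Good n m k ε (Real.log q) := (hq₀ q hqq).1
  have hcost' := (hq₀ q hqq).2
  set ℓ := Real.log q with hℓ
  have hℓ0 : 0 ≤ ℓ := by linarith [g.e1]
  have hEc : (E.card : ℝ) ≤ ε / 36 * ℓ :=
    hEc'.trans (mul_le_mul_of_nonneg_right (min_le_right _ _) hℓ0)
  have hd : Real.log H.index ≤ ε / 36 * ℓ :=
    hd'.trans (mul_le_mul_of_nonneg_right (min_le_right _ _) hℓ0)
  -- the maximum over the coset
  obtain ⟨ψ, hψ⟩ := Finite.exists_max (fun ψ : H => ‖(χ₀ * ψ.1).LFunction (1 / 2)‖)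
  refine ⟨ψ.1, ψ.2, ?_⟩
  set Λ := ‖(χ₀ * ψ.1).LFunction (1 / 2)‖ with hΛ
  have hsys := g.sys3 hm hmn hε0 hε1 hk hEc
  have hidx : 0 < H.index := Nat.pos_of_ne_zero Subgroup.index_ne_zero_of_finite
  have hq0 : 0 < q := hq.out.pos
  have hsize := g.size3 (E := E) hm hmn hε0 hε1 hEc hidx hd hℓ.symm hq0 rfl rfl
  refine g.final3 (E := E) hm hmn hε0 hε1 (hcost' E (fun p hp => (hE p hp).1)
    (hEc'.trans (mul_le_mul_of_nonneg_right (min_le_left _ _) hℓ0))) (norm_nonneg _) ?_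
  refine hsys.core H χ₀ hE rfl rfl hsize ?_ (norm_nonneg _) (fun φ hφ => hψ ⟨φ, hφ⟩)
  refine hrel _ _ _ _ (fun p => rr_nonneg p) ?_ hsize
  intro p hp
  obtain ⟨i, hi, hpi⟩ := Finset.mem_biUnion.mp hp
  have hp' := (g.mem_Wi).mp hpi
  have hi' := Finset.mem_Icc.mp hi
  have h1 : (1 : ℝ) ≤ i := by exact_mod_cast hi'.1
  have h2 : (i : ℝ) ≤ m := by exact_mod_cast hi'.2
  refine ⟨hp'.1, hp'.2.2.2, ?_, ?_, g.rr_sq_le3 hm hmn hε0 hε1 hEc hi hpi⟩
  · refine lt_of_le_of_lt ?_ hp'.2.1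
    unfold Xi
    refine Real.rpow_le_rpow_of_exponent_le (by linarith [g.e1]) ?_
    gcongr
  · refine hp'.2.2.1.trans ?_
    unfold Yi
    refine Real.rpow_le_rpow_of_exponent_le (by linarith [g.e1]) ?_
    exact div_le_self (by positivity) h1

end

end Pool.Agent.H.MP_3e6494_nt
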