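import Pool.Agent.H.MP_3e6494_nt.h26.RelC
import Pool.Agent.H.MP_3e6494_nt.h26.GenC

/-!
All cosets of subgroups of index up to `exp (c log q logloglog q / loglog q)`.
-/

set_option autoImplicit false

open Filter Topology

namespace Pool.Agent.H.MP_3e6494_nt.Str

theorem all_cosets3 {η : ℝ} (hη : 0 < η) :
    ∃ c : ℝ, 0 < c ∧ ∃ q₀ : ℕ, ∀ (q : ℕ) [Fact q.Prime], q₀ ≤ q →
      ∀ (H : Subgroup (DirichletCharacter ℂ q)) (χ₀ : DirichletCharacter ℂ q),
        Real.log H.index ≤ c * (Real.log q * Real.log (Real.log (Real.log q)) /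
          Real.log (Real.log q)) →
        ∃ ψ ∈ H, Real.exp ((√(Real.log 2 / 2) - η) *
          √(Real.log q / Real.log (Real.log q))) ≤ ‖(χ₀ * ψ).LFunction (1 / 2)‖ := by
  -- auxiliary parameter
  set θ : ℝ := min (η / 8) (1 / 4) with hθ
  have hθ0 : 0 < θ := lt_min (by linarith) (by norm_num)
  have hθ1 : θ ≤ 1 / 4 := min_le_right _ _
  have hθε : θ ≤ η / 8 := min_le_left _ _
  obtain ⟨n, hn3, hn⟩ := exists_ZZ (ε := θ ^ 2) (by positivity)
  have hm1 : 1 ≤ n - 2 := by omega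
  have hmn : n - 2 + 2 ≤ n := by omega
  obtain ⟨δ, hδ, q₁, hgen⟩ := gen3 (n := n) (m := n - 2) hm1 hmn hθ0 (by linarith : θ < 1)
  obtain ⟨c₁, hc₁, q₂, hrel⟩ := exists_relBound3 (n := n) (m := n - 2) hmn hδ
  -- the constant
  have hconst : √(Real.log 2 / 2) - η ≤ (1 - θ) ^ 2 * √(ZZ n (n - 2)) - θ := by
    have hl2 := Real.log_two_gt_d9
    have hl2' := Real.log_two_lt_d9
    have h1 : √(Real.log 2 / 2) - θ ≤ √(ZZ n (n - 2)) := by
      have h2 : √(Real.log 2 / 2) ≤ √(ZZ n (n - 2)) + θ := by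
        rw [Real.sqrt_le_left (by positivity)]
        have h3 : 0 ≤ ZZ n (n - 2) := by
          have : θ ^ 2 ≤ 1 / 16 := by nlinarith
          linarith
        nlinarith [Real.sq_sqrt h3, Real.sqrt_nonneg (ZZ n (n - 2))]
      linarith
    have h4 : √(Real.log 2 / 2) ≤ 1 := by
      rw [Real.sqrt_le_one]
      linarith
    have h5 : 0 ≤ √(Real.log 2 / 2) := Real.sqrt_nonneg _
    have h6 : 0 ≤ (1 - θ) ^ 2 := sq_nonneg _
    have h7 : (1 - θ) ^ 2 ≤ 1 := by nlinarith
    have h8 : (1 - θ) ^ 2 * (√(Real.log 2 / 2) - θ) ≤ (1 - θ) ^ 2 * √(ZZ n (n - 2)) :=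
      mul_le_mul_of_nonneg_left h1 h6
    nlinarith [mul_nonneg hθ0.le h5]
  have hlog : Tendsto (fun q : ℕ => Real.log (q : ℝ)) atTop atTop :=
    Real.tendsto_log_atTop.comp tendsto_natCast_atTop_atTop
  obtain ⟨q₃, hq₃⟩ := Filter.eventually_atTop.mp
    (hlog.eventually (eventually_ge_atTop (Real.exp (Real.exp 1))))
  refine ⟨min c₁ δ, lt_min hc₁ hδ, max q₁ (max q₂ q₃), ?_⟩
  intro q hq hqq H χ₀ hidx
  have hl1 : Real.exp (Real.exp 1) ≤ Real.log q :=
    hq₃ q ((le_max_right _ _).trans ((le_max_right _ _).trans hqq))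
  have hl0 : 0 < Real.log q := (Real.exp_pos _).trans_le hl1
  have hll : Real.exp 1 ≤ Real.log (Real.log q) := by
    rw [← Real.log_exp (Real.exp 1)]
    exact Real.log_le_log (Real.exp_pos _) hl1
  have hll0 : 0 < Real.log (Real.log q) := (Real.exp_pos _).trans_le hll
  have hlll : 1 ≤ Real.log (Real.log (Real.log q)) := by
    rw [← Real.log_exp 1]
    exact Real.log_le_log (Real.exp_pos _) hll
  have hV : 0 ≤ Real.log q * Real.log (Real.log (Real.log q)) / Real.log (Real.log q) := by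
    positivity
  have hV2 : Real.log q * Real.log (Real.log (Real.log q)) / Real.log (Real.log q) ≤
      Real.log q := by
    rw [div_le_iff₀ hll0]
    have h1 := Real.log_le_sub_one_of_pos hll0
    exact mul_le_mul_of_nonneg_left (by linarith) hl0.le
  have hcard : Nat.card (KK H) = H.index := card_KK H
  obtain ⟨E, hE1, hE2, hE3⟩ := hrel q ((le_max_left _ _).trans ((le_max_right _ _).trans hqq))
    (KK H) (by rw [hcard]; exact hidx.trans (mul_le_mul_of_nonneg_right (min_le_left _ _) hV))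
  obtain ⟨ψ, hψ, hψ2⟩ := hgen q ((le_max_left _ _).trans hqq) H χ₀ E hE1 hE2
    (hidx.trans ((mul_le_mul_of_nonneg_right (min_le_right _ _) hV).trans
      (mul_le_mul_of_nonneg_left hV2 hδ.le))) hE3
  refine ⟨ψ, hψ, le_trans (Real.exp_le_exp.mpr ?_) hψ2⟩
  exact mul_le_mul_of_nonneg_right hconst (Real.sqrt_nonneg _)

end Pool.Agent.H.MP_3e6494_nt.Str
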