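import Pool.Agent.H.MP_3e6494_nt.helper15.Ext

/-!
Extraction of a cluster, for families of pairs with at most `t` prime factors.
-/

set_option autoImplicit false
set_option linter.unusedVariables false

open Finset
open scoped Pointwise

namespace Pool.Agent.H.MP_3e6494_nt.Str

theorem pow_Omega_le2 (S : Finset (ℕ × ℕ)) (hpos : ∀ X ∈ S, 0 < X.1 ∧ 0 < X.2) (t : ℕ)
    (ht : ∀ X ∈ S, ArithmeticFunction.cardFactors X.1 + ArithmeticFunction.cardFactors X.2 ≤ t)
    (j : ℕ) : ∀ X ∈ S ^ j,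
      ArithmeticFunction.cardFactors X.1 + ArithmeticFunction.cardFactors X.2 ≤ j * t := by
  induction j with
  | zero =>
    intro X hX
    rw [pow_zero, Finset.mem_one] at hX
    subst hX
    simp
  | succ j ih =>
    intro X hX
    rw [pow_succ, Finset.mem_mul] at hX
    obtain ⟨a, ha, y, hy, rfl⟩ := hX
    have h1 := pow_pos' S hpos j a ha
    have h2 := hpos y hy
    have h3 := ih a ha
    have h4 := ht y hy
    rw [Prod.fst_mul, Prod.snd_mul, ArithmeticFunction.cardFactors_mul h1.1.ne' h2.1.ne',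
      ArithmeticFunction.cardFactors_mul h1.2.ne' h2.2.ne', add_mul, one_mul]
    omega

/-- **Extraction of a cluster.** -/
theorem extract2 (S : Finset (ℕ × ℕ)) (hpos : ∀ X ∈ S, 0 < X.1 ∧ 0 < X.2) (t : ℕ)
    (ht : ∀ X ∈ S, ArithmeticFunction.cardFactors X.1 + ArithmeticFunction.cardFactors X.2 ≤ t)
    (b D ρ : ℝ) (hb : 1 < b) (hρ : 1 ≤ ρ) (k R : ℕ)
    (hD : ∀ T ⊆ S, ((T ^ k).card : ℝ) ≤ D) (hbk : D < b ^ k) (hR : (k : ℝ) ≤ ρ ^ R)
    (hS : b ^ (R + 1) < S.card) :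
    ∃ T ⊆ S, ∃ j : ℕ, 1 ≤ j ∧ j < k ∧ b ^ j ≤ ((T ^ j).card : ℝ) ∧
      ∃ V : Finset ℕ, (∀ X ∈ T, pr X ⊆ V) ∧ (∀ p ∈ V, ∃ Y ∈ S, p ∈ pr Y) ∧
        (V.card : ℝ) ≤ 2 * ρ * j * t := by
  classical
  by_contra hcon
  push Not at hcon
  have hb0 : 0 < b := by linarith
  -- one round
  have round : ∀ T ⊆ S, b < T.card → ∃ j : ℕ, 1 ≤ j ∧ j < k ∧ b ^ j ≤ ((T ^ j).card : ℝ) ∧
      ∃ T' ⊆ T, ∃ V : Finset ℕ, (T.card : ℝ) ≤ b * T'.card ∧ (∀ X ∈ T', pr X ⊆ V) ∧
        (∀ p ∈ V, ∃ Y ∈ S, p ∈ pr Y) ∧ V.card ≤ (j + 1) * t := by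
    intro T hT hbT
    have hposT : ∀ X ∈ T, 0 < X.1 ∧ 0 < X.2 := fun X hX => hpos X (hT hX)
    have htT : ∀ X ∈ T,
        ArithmeticFunction.cardFactors X.1 + ArithmeticFunction.cardFactors X.2 ≤ t :=
      fun X hX => ht X (hT hX)
    have hTne : T.Nonempty := by
      rw [Finset.nonempty_iff_ne_empty]
      rintro rfl
      simp at hbT
      linarith
    obtain ⟨j, hjk, h1, h2⟩ := step T b k D (hD T hT) hbk hb0.le
    have hj1 : 1 ≤ j := by
      by_contra hj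
      have hj0 : j = 0 := by omega
      subst hj0
      simp at h2
      linarith
    obtain ⟨w, hw, hw2⟩ := pigeon T hposT b hb0 j h2 hTne
    have hwpos := pow_pos' T hposT (j + 1) w hw
    refine ⟨j, hj1, hjk, h1, T.filter fun X => X.1 ∣ w.1 ∧ X.2 ∣ w.2, Finset.filter_subset _ _,
      pr w, hw2, ?_, ?_, ?_⟩
    · intro X hX
      rw [Finset.mem_filter] at hX
      exact pr_mono hX.2.1 hX.2.2 hwpos.1.ne' hwpos.2.ne'
    · intro p hp
      obtain ⟨Y, hY, hpY⟩ := pr_pow T hposT (j + 1) w hw p hp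
      exact ⟨Y, hT hY, hpY⟩
    · exact (card_pr w).trans (pow_Omega_le2 T hposT t htT (j + 1) w hw)
  -- iterate
  have iter : ∀ i ≤ R, ∃ T ⊆ S, (S.card : ℝ) ≤ b ^ (i + 1) * T.card ∧ ∃ J : ℕ, 1 ≤ J ∧
      (J : ℝ) * ρ ^ i < k ∧ ∃ V : Finset ℕ, (∀ X ∈ T, pr X ⊆ V) ∧
        (∀ p ∈ V, ∃ Y ∈ S, p ∈ pr Y) ∧ V.card ≤ (J + 1) * t := by
    intro i
    induction i with
    | zero =>
      intro _
      have hbS : b < S.card := by
        refine lt_of_le_of_lt ?_ hS
        calc b = b ^ 1 := (pow_one b).symm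
          _ ≤ b ^ (R + 1) := pow_le_pow_right₀ hb.le (by omega)
      obtain ⟨j, hj1, hjk, h1, T', hT', V, h2, h3, h4, h5⟩ := round S (Finset.Subset.refl S) hbS
      refine ⟨T', hT', by rw [zero_add, pow_one]; exact h2, j, hj1, ?_, V, h3, h4, h5⟩
      rw [pow_zero, mul_one]
      exact_mod_cast hjk
    | succ i ih =>
      intro hi
      obtain ⟨T, hT, h1, J, hJ, hJk, V, h2, h3, h4⟩ := ih (by omega)
      have hbT : b < T.card := by
        have h5 : b ^ (R + 1) < b ^ (i + 1) * T.card := lt_of_lt_of_le hS h1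
        have h6 : b ^ (i + 1) * b ≤ b ^ (R + 1) := by
          rw [← pow_succ]
          exact pow_le_pow_right₀ hb.le (by omega)
        have h7 : (0 : ℝ) < b ^ (i + 1) := by positivity
        by_contra h8
        push Not at h8
        nlinarith
      obtain ⟨j, hj1, hjk, h5, T', hT', V', h6, h7, h8, h9⟩ := round T hT hbT
      -- either success or a large drop
      have hlt : 2 * ρ * j * t < (V.card : ℝ) := hcon T hT j hj1 hjk h5 V h2 h3
      have h10 : ρ * j < J := by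
        have h11 : (V.card : ℝ) ≤ ((J : ℝ) + 1) * t := by exact_mod_cast h4
        have h12 : ((J : ℝ) + 1) * t ≤ 2 * J * t := by
          have : (1 : ℝ) ≤ J := by exact_mod_cast hJ
          have ht0 : (0 : ℝ) ≤ t := Nat.cast_nonneg t
          nlinarith
        by_contra h13
        push Not at h13
        have ht0 : (0 : ℝ) ≤ t := Nat.cast_nonneg t
        nlinarith
      refine ⟨T', hT'.trans hT, ?_, j, hj1, ?_, V', h7, h8, h9⟩
      · calc (S.card : ℝ) ≤ b ^ (i + 1) * T.card := h1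
          _ ≤ b ^ (i + 1) * (b * T'.card) := by gcongr
          _ = b ^ (i + 1 + 1) * T'.card := by ring
      · calc (j : ℝ) * ρ ^ (i + 1) = (ρ * j) * ρ ^ i := by ring
          _ ≤ J * ρ ^ i := by gcongr
          _ < k := hJk
  obtain ⟨T, hT, h1, J, hJ, hJk, -⟩ := iter R le_rfl
  have h2 : (1 : ℝ) ≤ J := by exact_mod_cast hJ
  have h3 : (0 : ℝ) < ρ ^ R := by positivity
  nlinarith

end Pool.Agent.H.MP_3e6494_nt.Str
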