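import Pool.Agent.H.MP_3e6494_nt.h26.Str2
import Pool.Agent.H.MP_3e6494_nt.helper15.RelB

/-!
The relation bound for all subgroups of index up to `exp (c log q / log log q)`.
-/

set_option autoImplicit false
set_option linter.unusedVariables false

open Finset Filter Topology

namespace Pool.Agent.H.MP_3e6494_nt.Str

/-- the primes up to `B` -/
def smallPr (B : ℕ) : Finset ℕ := (Finset.range (B + 1)).filter Nat.Prime

theorem mem_smallPr {B p : ℕ} : p ∈ smallPr B ↔ p.Prime ∧ p ≤ B := by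
  unfold smallPr
  rw [Finset.mem_filter, Finset.mem_range]
  constructor
  · rintro ⟨h1, h2⟩
    exact ⟨h2, by omega⟩
  · rintro ⟨h1, h2⟩
    exact ⟨by omega, h1⟩

theorem card_smallPr (B : ℕ) : ((smallPr B).card : ℝ) ≤ B := by
  have h1 : smallPr B ⊆ Finset.Icc 1 B := by
    intro p hp
    rw [mem_smallPr] at hp
    rw [Finset.mem_Icc]
    exact ⟨hp.1.one_lt.le, hp.2⟩
  have h2 := Finset.card_le_card h1
  rw [Nat.card_Icc] at h2
  exact_mod_cast (by omega : (smallPr B).card ≤ B)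

/-- the conclusion of the structure lemma -/
def StrConcl (q : ℕ) [Fact q.Prime] (K : Subgroup (ZMod q)ˣ) (E : Finset ℕ) (μ g : ℝ) : Prop :=
  ∀ (F : Finset (ℕ × ℕ)) (t Z : ℕ), 1 ≤ t → (∀ X ∈ F, 0 < X.1 ∧ 0 < X.2) →
        (∀ X ∈ F, Nat.Coprime X.1 X.2) → (∀ X ∈ F, Rel K X.1 X.2) →
        (∀ X ∈ F, ArithmeticFunction.cardFactors X.1 + ArithmeticFunction.cardFactors X.2 ≤ t) →
        (∀ X ∈ F, X.1 ≤ Z ∧ X.2 ≤ Z) → (∀ X ∈ F, ∀ p ∈ E, p ∉ pr X) →
        Real.log Z ≤ t * μ → 8 * Real.log Z ≤ Real.log q → 1 ≤ Z → (F.card : ℝ) < (2 * g) ^ t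

theorem relBound_core {q : ℕ} [hq : Fact q.Prime] {K : Subgroup (ZMod q)ˣ} {n m : ℕ} {B : ℕ}
    {V : Finset ℕ} {cc μ g : ℝ} (hcc0 : 0 < cc) (hcc : cc < 1 / 2) (hB : 2 ≤ B)
    (hl0 : 0 < Real.log q)
    (hl : 2 * √(Real.log q) ≤ (Real.log q ^ ((n : ℝ) / (m + 1))) ^ (1 / 2 - cc))
    (hS : StrConcl q K (smallPr B ∪ V) μ g) (hμ : 2 * Real.log B ≤ μ)
    (hg0 : 0 ≤ g) (hg : 34 * (2 * g) ≤ (B : ℝ) ^ cc)
    (hK : ∀ j : ℕ, Real.log q < 8 * ((j : ℝ) + 1) * Real.log B →
      (Nat.card K : ℝ) * ((B : ℝ) ^ (-cc)) ^ j ≤ 1 / 16) :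
    RelBound q K (smallPr B ∪ V) n m := by
  classical
  intro P r N C0 hr hP hN
  have hB1 : 1 < B := by omega
  have hB0 : (0 : ℝ) < B := by positivity
  have hlB : 0 < Real.log B := Real.log_pos (by exact_mod_cast hB1)
  have hP' : ∀ p ∈ P, p.Prime ∧ 2 * r p ≤ (p : ℝ) ^ (-cc) := by
    intro p hp
    obtain ⟨h1, -, h3, -, h4⟩ := hP p hp
    refine ⟨h1, ?_⟩
    have hp0 : (0 : ℝ) < p := by exact_mod_cast h1.pos
    have h5 : r p ≤ √(Real.log q) * (√(p : ℝ))⁻¹ := by
      rw [← div_eq_mul_inv, ← Real.sqrt_div hl0.le]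
      exact Real.le_sqrt_of_sq_le h4
    calc 2 * r p ≤ 2 * √(Real.log q) * (√(p : ℝ))⁻¹ := by linarith
      _ ≤ (Real.log q ^ ((n : ℝ) / (m + 1))) ^ (1 / 2 - cc) * (√(p : ℝ))⁻¹ := by gcongr
      _ ≤ (p : ℝ) ^ (1 / 2 - cc) * (√(p : ℝ))⁻¹ := by
          gcongr
      _ = (p : ℝ) ^ (-cc) := by
          rw [Real.sqrt_eq_rpow, ← Real.rpow_neg hp0.le, ← Real.rpow_add hp0]
          congr 1
          ring
  set y : ℝ := (B : ℝ) ^ (-cc) with hy
  have hy0 : 0 < y := by positivity
  set f : ℕ × ℕ → ℕ := fun X => Nat.log B (X.1 * X.2) with hf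
  set S := RR K P (smallPr B ∪ V) N C0 with hSdef
  -- primes of a relation are large
  have hbig : ∀ X ∈ S, ∀ p ∈ pr X, B ≤ p := by
    intro X hX p hp
    obtain ⟨⟨a1, a2⟩, ⟨a3, a4⟩, a5, a6, a7, a8, a9, a10⟩ := mem_RR.mp hX
    by_contra hcon
    push Not at hcon
    unfold pr at hp
    rw [Finset.mem_union] at hp
    rcases hp with h | h
    · have hpp := Nat.prime_of_mem_primeFactors h
      exact (a8 p (Finset.mem_union_left _ (mem_smallPr.mpr ⟨hpp, by omega⟩))).1
        (Nat.dvd_of_mem_primeFactors h)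
    · have hpp := Nat.prime_of_mem_primeFactors h
      exact (a8 p (Finset.mem_union_left _ (mem_smallPr.mpr ⟨hpp, by omega⟩))).2
        (Nat.dvd_of_mem_primeFactors h)
  have hpos : ∀ X ∈ S, 0 < X.1 ∧ 0 < X.2 := by
    intro X hX
    obtain ⟨⟨a1, a2⟩, ⟨a3, a4⟩, -⟩ := mem_RR.mp hX
    exact ⟨by omega, by omega⟩
  have hΩ : ∀ X ∈ S, ArithmeticFunction.cardFactors X.1 +
      ArithmeticFunction.cardFactors X.2 ≤ f X := by
    intro X hX
    have h0 := hpos X hX
    have h1 := hbig X hX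
    have h2 : B ^ (ArithmeticFunction.cardFactors X.1) ≤ X.1 :=
      pow_Omega_le B X.1 h0.1.ne' fun p hp => h1 p (Finset.mem_union_left _ hp)
    have h3 : B ^ (ArithmeticFunction.cardFactors X.2) ≤ X.2 :=
      pow_Omega_le B X.2 h0.2.ne' fun p hp => h1 p (Finset.mem_union_right _ hp)
    apply Nat.le_log_of_pow_le hB1
    rw [pow_add]
    exact Nat.mul_le_mul h2 h3
  have hf1 : ∀ X ∈ S, 1 ≤ f X := by
    intro X hX
    refine le_trans ?_ (hΩ X hX)
    obtain ⟨⟨a1, a2⟩, ⟨a3, a4⟩, a5, a6, -⟩ := mem_RR.mp hX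
    by_contra hcon
    push Not at hcon
    have h1 : ArithmeticFunction.cardFactors X.1 = 0 := by omega
    have h2 : ArithmeticFunction.cardFactors X.2 = 0 := by omega
    rw [ArithmeticFunction.cardFactors_eq_zero_iff_eq_zero_or_one] at h1 h2
    exact a6 ⟨by omega, by omega⟩
  have hterm : ∀ X ∈ S, WW P r X.1 X.2 ≤ y ^ (f X) := by
    intro X hX
    have h0 := hpos X hX
    obtain ⟨⟨a1, a2⟩, ⟨a3, a4⟩, a5, a6, a7, a8, a9, a10⟩ := mem_RR.mp hX
    refine (WW_le hr hcc0.le hcc.le hP' a1 a9 a10).trans ?_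
    have hu0 : (0 : ℝ) < X.1 := by exact_mod_cast h0.1
    have hv0 : (0 : ℝ) < X.2 := by exact_mod_cast h0.2
    have h1 : (B : ℝ) ^ (f X) ≤ (X.1 : ℝ) * X.2 := by
      have := Nat.pow_log_le_self B (x := X.1 * X.2) (Nat.mul_pos h0.1 h0.2).ne'
      exact_mod_cast this
    rw [← Real.mul_rpow hu0.le hv0.le, hy, ← Real.rpow_natCast, ← Real.rpow_mul hB0.le,
      mul_comm (-cc), Real.rpow_mul hB0.le, Real.rpow_natCast]
    exact Real.rpow_le_rpow_of_nonpos (by positivity) h1 (by linarith)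
  -- split
  set S1 := S.filter fun X => 8 * ((f X : ℝ) + 1) * Real.log B ≤ Real.log q with hS1
  set S2 := S.filter fun X => ¬ 8 * ((f X : ℝ) + 1) * Real.log B ≤ Real.log q with hS2
  have hsplit : ∑ X ∈ S, WW P r X.1 X.2 = ∑ X ∈ S1, WW P r X.1 X.2 + ∑ X ∈ S2, WW P r X.1 X.2 :=
    (Finset.sum_filter_add_sum_filter_not S _ _).symm
  have hl1 : ∑ X ∈ S2, WW P r X.1 X.2 ≤ 1 / 16 := by
    have hcard : (S2.card : ℝ) ≤ Nat.card K := by
      have h1 : S2.card ≤ S.card := Finset.card_le_card (Finset.filter_subset _ _)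
      have h2 := RR_card (K := K) (P := P) (E := smallPr B ∪ V) hN
      exact_mod_cast h1.trans h2
    have hK0 : (0 : ℝ) < Nat.card K := by
      have : 0 < Nat.card K := Nat.card_pos
      exact_mod_cast this
    have h3 : ∀ X ∈ S2, WW P r X.1 X.2 ≤ 1 / 16 / Nat.card K := by
      intro X hX
      rw [hS2, Finset.mem_filter] at hX
      refine (hterm X hX.1).trans ?_
      rw [le_div_iff₀ hK0, mul_comm]
      exact hK _ (not_le.mp hX.2)
    calc ∑ X ∈ S2, WW P r X.1 X.2 ≤ ∑ _X ∈ S2, 1 / 16 / (Nat.card K : ℝ) := Finset.sum_le_sum h3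
      _ = S2.card * (1 / 16 / Nat.card K) := by rw [Finset.sum_const, nsmul_eq_mul]
      _ ≤ Nat.card K * (1 / 16 / Nat.card K) := by gcongr
      _ = 1 / 16 := by field_simp
  have hl2 : ∑ X ∈ S1, WW P r X.1 X.2 ≤ 1 / 16 := by
    set M : ℕ := (S1.sup f) + 1 with hM
    have hmaps : ∀ X ∈ S1, f X ∈ Finset.range M := by
      intro X hX
      rw [Finset.mem_range, hM]
      have : f X ≤ S1.sup f := Finset.le_sup hX
      omega
    have h1 : ∑ X ∈ S1, WW P r X.1 X.2 ≤ ∑ X ∈ S1, y ^ (f X) :=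
      Finset.sum_le_sum fun X hX => hterm X (Finset.mem_filter.mp hX).1
    have h2 : ∑ X ∈ S1, y ^ (f X) = ∑ j ∈ Finset.range M, (S1.filter fun X => f X = j).card * y ^ j := by
      rw [← Finset.sum_fiberwise_of_maps_to hmaps]
      refine Finset.sum_congr rfl fun j _ => ?_
      rw [← nsmul_eq_mul, ← Finset.sum_const]
      refine Finset.sum_congr rfl fun X hX => ?_
      rw [(Finset.mem_filter.mp hX).2]
    have h3 : ∀ j ∈ Finset.range M, ((S1.filter fun X => f X = j).card : ℝ) * y ^ j ≤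
        (if j = 0 then 0 else (1 / 34 : ℝ) ^ j) := by
      intro j _
      by_cases hj : j = 0
      · rw [if_pos hj]
        have h4 : (S1.filter fun X => f X = j) = ∅ := by
          rw [Finset.filter_eq_empty_iff]
          intro X hX
          have := hf1 X (Finset.mem_filter.mp hX).1
          omega
        rw [h4]
        simp
      · rw [if_neg hj]
        have hj1 : 1 ≤ j := by omega
        set F := S1.filter fun X => f X = j with hF
        rcases F.eq_empty_or_nonempty with hFe | hFne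
        · rw [hFe]
          simp only [Finset.card_empty, Nat.cast_zero, zero_mul]
          positivity
        have hFS : ∀ X ∈ F, X ∈ S ∧ f X = j ∧ 8 * ((f X : ℝ) + 1) * Real.log B ≤ Real.log q := by
          intro X hX
          rw [hF, Finset.mem_filter, hS1, Finset.mem_filter] at hX
          exact ⟨hX.1.1, hX.2, hX.1.2⟩
        have hjq : 8 * ((j : ℝ) + 1) * Real.log B ≤ Real.log q := by
          obtain ⟨X, hX⟩ := hFne
          obtain ⟨-, h4, h5⟩ := hFS X hX
          rwa [h4] at h5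
        have hZ : Real.log ((B ^ (j + 1) : ℕ) : ℝ) = ((j : ℝ) + 1) * Real.log B := by
          push_cast
          rw [Real.log_pow]
          push_cast
          ring
        have hZX : ∀ X ∈ F, X.1 ≤ B ^ (j + 1) ∧ X.2 ≤ B ^ (j + 1) := by
          intro X hX
          obtain ⟨h4, h5, -⟩ := hFS X hX
          have h6 := hpos X h4
          have h7 : X.1 * X.2 < B ^ (j + 1) := by
            have := Nat.lt_pow_succ_log_self hB1 (X.1 * X.2)
            rwa [show Nat.log B (X.1 * X.2) = j from h5] at this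
          constructor
          · nlinarith
          · nlinarith
        have h6 := hS F j (B ^ (j + 1)) hj1 (fun X hX => hpos X (hFS X hX).1)
          (fun X hX => (mem_RR.mp (hFS X hX).1).2.2.1)
          (fun X hX => (mem_RR.mp (hFS X hX).1).2.2.2.2.1)
          (fun X hX => by
            have := hΩ X (hFS X hX).1
            rwa [(hFS X hX).2.1] at this)
          hZX
          (by
            intro X hX p hp hpr
            have h8 := (mem_RR.mp (hFS X hX).1).2.2.2.2.2.1 p hp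
            unfold pr at hpr
            rw [Finset.mem_union] at hpr
            rcases hpr with h | h
            · exact h8.1 (Nat.dvd_of_mem_primeFactors h)
            · exact h8.2 (Nat.dvd_of_mem_primeFactors h))
          (by
            rw [hZ]
            have hj1' : (1 : ℝ) ≤ j := by exact_mod_cast hj1
            calc ((j : ℝ) + 1) * Real.log B ≤ (j + j) * Real.log B := by gcongr
              _ = j * (2 * Real.log B) := by ring
              _ ≤ j * μ := by gcongr)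
          (by
            rw [hZ]
            linarith)
          (Nat.one_le_pow _ _ (by omega))
        have hgy : (2 * g) * y ≤ 1 / 34 := by
          have h9 : y * (B : ℝ) ^ cc = 1 := by
            rw [hy, ← Real.rpow_add hB0]
            simp
          nlinarith [mul_le_mul_of_nonneg_left hg hy0.le]
        calc (F.card : ℝ) * y ^ j ≤ (2 * g) ^ j * y ^ j := by gcongr
          _ = ((2 * g) * y) ^ j := (mul_pow _ _ _).symm
          _ ≤ (1 / 34) ^ j := pow_le_pow_left₀ (by positivity) hgy j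
    have h4 : ∑ j ∈ Finset.range M, (if j = 0 then (0 : ℝ) else (1 / 34 : ℝ) ^ j) ≤ 1 / 33 := by
      have h5 : ∀ M : ℕ, ∑ j ∈ Finset.range (M + 1), (if j = 0 then (0 : ℝ) else (1 / 34 : ℝ) ^ j) =
          1 / 33 - (1 / 33) * (1 / 34) ^ M := by
        intro M
        induction M with
        | zero => simp
        | succ M ih =>
          rw [Finset.sum_range_succ, ih, if_neg (by omega), pow_succ]
          ring
      rw [hM, h5]
      have : (0 : ℝ) ≤ 1 / 33 * (1 / 34) ^ (S1.sup f) := by positivity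
      linarith
    calc ∑ X ∈ S1, WW P r X.1 X.2 ≤ ∑ j ∈ Finset.range M, (S1.filter fun X => f X = j).card * y ^ j := by
          rw [← h2]; exact h1
      _ ≤ ∑ j ∈ Finset.range M, (if j = 0 then (0 : ℝ) else (1 / 34 : ℝ) ^ j) := Finset.sum_le_sum h3
      _ ≤ 1 / 33 := h4
      _ ≤ 1 / 16 := by norm_num
  rw [hsplit]
  linarith

/-- numerical facts about `ℓ = log q` -/
structure PreB (n m : ℕ) (cc ε c : ℝ) (ℓ : ℝ) : Prop where
  big : 16 ≤ ℓ
  l1 : 1 ≤ Real.log ℓ
  e2 : 2 * √ℓ ≤ (ℓ ^ ((n : ℝ) / (m + 1))) ^ (1 / 2 - cc)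
  e3 : 68 ≤ √ℓ ^ (cc / 2)
  e4 : (Real.log (ℓ / (cc / 8) + 1) / Real.log 2 + 2) * (cc / 8) < cc / 4 * Real.log ℓ - Real.log 2
  e5 : 2 * √ℓ ≤ ε / 2 * (ℓ / Real.log ℓ)
  e6 : c * (ℓ / Real.log ℓ) + 3 ≤ cc * (ℓ / 8 - Real.log ℓ)

theorem ev_PreB {n m : ℕ} (hmn : m + 2 ≤ n) {ε c : ℝ} (hε : 0 < ε) (hc : 0 < c) :
    ∀ᶠ ℓ : ℝ in atTop, PreB n m (1 / (4 * ((m : ℝ) + 2))) ε c ℓ := by
  set cc : ℝ := 1 / (4 * ((m : ℝ) + 2)) with hcc
  have hm0 : (0 : ℝ) ≤ m := Nat.cast_nonneg m
  have hcc0 : 0 < cc := by positivity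
  have hcc1 : cc ≤ 1 / 8 := by
    rw [hcc, div_le_div_iff₀ (by positivity) (by norm_num)]
    linarith
  have hl2 := Real.log_two_gt_d9
  have hl2' := Real.log_two_lt_d9
  set x : ℝ := 1 / (4 * ((m : ℝ) + 1)) with hx
  have hx0 : 0 < x := by positivity
  set D : ℝ := Real.log (1 / (cc / 8) + 1) with hD
  have hD0 : 0 ≤ D := Real.log_nonneg (by
    have : 0 < 1 / (cc / 8) := by positivity
    linarith)
  -- the list of elementary facts
  filter_upwards [eventually_ge_atTop (16 : ℝ), ev_logc 1, ev_pow 2 hx0,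
    ev_pow 68 (show 0 < cc / 4 by positivity),
    ev_logc ((2 * D * (cc / 8) + 2 * (cc / 8) + 1) / (cc / 20)),
    ev_log (c := ε / 4) (a := 1 / 2) (by positivity) (by norm_num),
    ev_logc (32 * c / cc), ev_log (c := 1 / 32) (a := 1) (by norm_num) (by norm_num),
    eventually_ge_atTop (48 / cc)] with ℓ f1 f2 f3 f4 f5 f6 f7 f8 f9
  have hℓ0 : 0 < ℓ := lt_of_lt_of_le (by norm_num) f1
  have hL : 0 < Real.log ℓ := lt_of_lt_of_le one_pos f2
  rw [Real.rpow_one] at f8
  refine ⟨f1, f2, ?_, ?_, ?_, ?_, ?_⟩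
  · rw [← Real.rpow_mul hℓ0.le]
    have h1 : (1 / 2 : ℝ) + x ≤ (n : ℝ) / (m + 1) * (1 / 2 - cc) := by
      have h2 : ((m : ℝ) + 2) / (m + 1) ≤ (n : ℝ) / (m + 1) := by
        gcongr
        exact_mod_cast hmn
      have h3 : 0 ≤ 1 / 2 - cc := by linarith
      refine le_trans (le_of_eq ?_) (mul_le_mul_of_nonneg_right h2 h3)
      rw [hx, hcc]
      field_simp
      ring
    calc 2 * √ℓ ≤ ℓ ^ x * ℓ ^ (1 / 2 : ℝ) := by
          rw [← Real.sqrt_eq_rpow]
          gcongr
      _ = ℓ ^ (1 / 2 + x) := by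
          rw [← Real.rpow_add hℓ0]
          congr 1
          ring
      _ ≤ _ := Real.rpow_le_rpow_of_exponent_le (by linarith) h1
  · rw [Real.sqrt_eq_rpow, ← Real.rpow_mul hℓ0.le]
    refine f4.trans (le_of_eq ?_)
    congr 1
    ring
  · have h1 : Real.log (ℓ / (cc / 8) + 1) ≤ Real.log ℓ + D := by
      rw [hD, ← Real.log_mul hℓ0.ne' (by positivity)]
      apply Real.log_le_log (by positivity)
      have : ℓ / (cc / 8) = ℓ * (1 / (cc / 8)) := by ring
      rw [this]
      nlinarith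
    have h2 : Real.log (ℓ / (cc / 8) + 1) / Real.log 2 ≤ (Real.log ℓ + D) / Real.log 2 := by
      gcongr
    have h3 : (Real.log ℓ + D) / Real.log 2 ≤ 1.45 * Real.log ℓ + 2 * D := by
      rw [div_le_iff₀ (by linarith)]
      nlinarith
    rw [div_le_iff₀ (by positivity)] at f5
    have h4 : (Real.log (ℓ / (cc / 8) + 1) / Real.log 2 + 2) * (cc / 8) ≤
        (1.45 * Real.log ℓ + 2 * D + 2) * (cc / 8) := by
      gcongr
      linarith
    refine lt_of_le_of_lt h4 ?_
    nlinarith [mul_pos hcc0 hL]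
  · rw [← Real.sqrt_eq_rpow] at f6
    have hs : 0 < √ℓ := Real.sqrt_pos.mpr hℓ0
    have hss : √ℓ * √ℓ = ℓ := Real.mul_self_sqrt hℓ0.le
    rw [← mul_div_assoc, le_div_iff₀ hL]
    nlinarith
  · rw [div_le_iff₀ hcc0] at f7 f9
    have h1 : c * (ℓ / Real.log ℓ) ≤ cc * ℓ / 32 := by
      rw [← mul_div_assoc, div_le_iff₀ hL]
      nlinarith
    nlinarith

/-- **The relation bound** for all subgroups of index up to `exp (c log q / log log q)`. -/
theorem exists_relBound2 {n m : ℕ} (hmn : m + 2 ≤ n) {ε : ℝ} (hε : 0 < ε) :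
    ∃ c : ℝ, 0 < c ∧ ∃ q₀ : ℕ, ∀ (q : ℕ) [Fact q.Prime], q₀ ≤ q → ∀ K : Subgroup (ZMod q)ˣ,
      Real.log (Nat.card K) ≤ c * (Real.log q / Real.log (Real.log q)) →
      ∃ E : Finset ℕ, (∀ p ∈ E, p.Prime ∧ p < q) ∧
        (E.card : ℝ) ≤ ε * (Real.log q / Real.log (Real.log q)) ∧ RelBound q K E n m := by
  set cc : ℝ := 1 / (4 * ((m : ℝ) + 2)) with hcc
  have hm0 : (0 : ℝ) ≤ m := Nat.cast_nonneg m
  have hcc0 : 0 < cc := by positivity
  have hcc1 : cc ≤ 1 / 8 := by
    rw [hcc, div_le_div_iff₀ (by positivity) (by norm_num)]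
    linarith
  set lam : ℝ := cc / 8 with hlam
  have hlam0 : 0 < lam := by positivity
  set c : ℝ := min (lam / 32) (min (ε * lam / 8) 1) with hc
  have hc0 : 0 < c := lt_min (by positivity) (lt_min (by positivity) one_pos)
  have hc1 : c ≤ lam / 32 := min_le_left _ _
  have hc2 : c ≤ ε * lam / 8 := (min_le_right _ _).trans (min_le_left _ _)
  have hc3 : c ≤ 1 := (min_le_right _ _).trans (min_le_right _ _)
  refine ⟨c, hc0, ?_⟩
  have hlog : Tendsto (fun q : ℕ => Real.log (q : ℝ)) atTop atTop :=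
    Real.tendsto_log_atTop.comp tendsto_natCast_atTop_atTop
  obtain ⟨q₀, hq₀⟩ := Filter.eventually_atTop.mp (hlog.eventually (ev_PreB hmn hε hc0))
  refine ⟨q₀, ?_⟩
  intro q hq hqq K hK
  have g : PreB n m cc ε c (Real.log q) := hq₀ q hqq
  set ℓ := Real.log q with hℓ
  have hℓ0 : 0 < ℓ := by linarith [g.big]
  have hL : 0 < Real.log ℓ := by linarith [g.l1]
  have hq0 : (0 : ℝ) < q := by exact_mod_cast hq.out.pos
  set d : ℝ := Real.log (Nat.card K) with hd
  have hKpos : 0 < Nat.card K := Nat.card_pos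
  have hd0 : 0 ≤ d := Real.log_natCast_nonneg _
  have hl2 := Real.log_two_gt_d9
  have hl2' := Real.log_two_lt_d9
  have hdl : d ≤ ℓ := by
    refine hK.trans ?_
    calc c * (ℓ / Real.log ℓ) ≤ 1 * (ℓ / Real.log ℓ) := by gcongr
      _ ≤ ℓ := by
        rw [one_mul, div_le_iff₀ hL]
        nlinarith [g.l1]
  -- the base
  set B : ℕ := ⌈√ℓ⌉₊ with hB
  have hs4 : 4 ≤ √ℓ := by
    rw [show (4 : ℝ) = √16 by
      rw [show (16 : ℝ) = 4 ^ 2 by norm_num, Real.sqrt_sq (by norm_num)]]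
    exact Real.sqrt_le_sqrt g.big
  have hBl : √ℓ ≤ B := Nat.le_ceil _
  have hBu : (B : ℝ) ≤ 2 * √ℓ := by
    have := (Nat.ceil_lt_add_one (Real.sqrt_nonneg ℓ)).le
    rw [← hB] at this
    linarith
  have hB0 : (0 : ℝ) < B := by linarith
  have hB2 : 2 ≤ B := by
    have : (2 : ℝ) ≤ B := by linarith
    exact_mod_cast this
  have hlogB : Real.log B ≤ Real.log ℓ := by
    apply Real.log_le_log hB0
    have hss : √ℓ * √ℓ = ℓ := Real.mul_self_sqrt hℓ0.le
    nlinarith
  have hlogB' : Real.log ℓ / 2 ≤ Real.log B := by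
    rw [← Real.log_sqrt hℓ0.le]
    exact Real.log_le_log (by linarith) hBl
  have hlogB0 : 0 < Real.log B := by linarith
  -- the growth
  set gg : ℝ := (B : ℝ) ^ (cc / 2) / 2 with hgg
  have hBc : 68 ≤ (B : ℝ) ^ (cc / 2) :=
    g.e3.trans (Real.rpow_le_rpow (Real.sqrt_nonneg _) hBl (by positivity))
  have hg1 : 1 < gg := by rw [hgg]; linarith
  have hlogg : cc / 4 * Real.log ℓ - Real.log 2 ≤ Real.log gg := by
    rw [hgg, Real.log_div (by positivity) (by norm_num), Real.log_rpow hB0]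
    nlinarith
  -- the number of rounds
  set R : ℕ := ⌈Real.log (ℓ / lam + 1) / Real.log 2⌉₊ with hR
  have hR1 : ((R : ℝ) + 1) * lam < Real.log gg := by
    refine lt_of_lt_of_le ?_ hlogg
    refine lt_of_le_of_lt ?_ g.e4
    have h1 : (R : ℝ) ≤ Real.log (ℓ / lam + 1) / Real.log 2 + 1 := by
      refine (Nat.ceil_lt_add_one ?_).le
      apply div_nonneg _ (by linarith)
      apply Real.log_nonneg
      have : 0 < ℓ / lam := by positivity
      linarith
    rw [hlam] at h1
    exact mul_le_mul_of_nonneg_right (by linarith) hlam0.le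
  have hR2 : d / lam + 1 ≤ 2 ^ R := by
    have h1 : d / lam + 1 ≤ ℓ / lam + 1 := by gcongr
    refine h1.trans ?_
    have h2 : Real.log (ℓ / lam + 1) ≤ R * Real.log 2 := by
      rw [← div_le_iff₀ (by linarith)]
      exact Nat.le_ceil _
    rw [← Real.log_pow] at h2
    exact (Real.log_le_log_iff (by positivity) (by positivity)).mp h2
  -- the structure lemma
  obtain ⟨V, hV1, hV2, hV3⟩ := structure_lemma2 K (smallPr B) lam (2 * Real.log ℓ) gg 2 R hlam0
    (by positivity) hg1 (by norm_num) hR1 hR2 (by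
      have h1 : d ≤ lam / 32 * (ℓ / Real.log ℓ) := hK.trans (by gcongr)
      calc 8 * (d * (2 * Real.log ℓ / lam)) ≤
          8 * (lam / 32 * (ℓ / Real.log ℓ) * (2 * Real.log ℓ / lam)) := by gcongr
        _ = ℓ / 2 := by
          field_simp
          norm_num
        _ ≤ Real.log q := by rw [← hℓ]; linarith)
  refine ⟨smallPr B ∪ V, ?_, ?_, ?_⟩
  · intro p hp
    rw [Finset.mem_union] at hp
    rcases hp with hp | hp
    · rw [mem_smallPr] at hp
      refine ⟨hp.1, lt_of_le_of_lt hp.2 ?_⟩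
      have h1 : (B : ℝ) < q := by
        have h2 : Real.log B < Real.log q := by
          rw [← hℓ]
          refine lt_of_le_of_lt hlogB ?_
          have := Real.log_lt_sub_one_of_pos hℓ0 (by linarith [g.big])
          linarith
        exact (Real.log_lt_log_iff hB0 hq0).mp h2
      exact_mod_cast h1
    · exact hV1 p hp
  · have h1 : ((smallPr B ∪ V).card : ℝ) ≤ (smallPr B).card + V.card := by
      exact_mod_cast Finset.card_union_le _ _
    have h2 := card_smallPr B
    have h3 : (2 * 2 / lam) * d ≤ ε / 2 * (ℓ / Real.log ℓ) := by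
      calc (2 * 2 / lam) * d ≤ (2 * 2 / lam) * (ε * lam / 8 * (ℓ / Real.log ℓ)) := by
            gcongr
            exact hK.trans (by gcongr)
        _ = ε / 2 * (ℓ / Real.log ℓ) := by
            field_simp
            norm_num
    have h4 := g.e5
    linarith
  · have hl0 : 0 < Real.log q := by rw [← hℓ]; exact hℓ0
    refine relBound_core (cc := cc) (μ := 2 * Real.log ℓ) (g := gg) hcc0 (by linarith) hB2 hl0
      (by rw [← hℓ]; exact g.e2) hV3 (by linarith) (by positivity) ?_ ?_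
    · have h1 : (B : ℝ) ^ cc = (B : ℝ) ^ (cc / 2) * (B : ℝ) ^ (cc / 2) := by
        rw [← Real.rpow_add hB0]
        congr 1
        ring
      rw [h1, hgg]
      nlinarith
    · intro j hj
      rw [← hℓ] at hj
      have h1 : (Nat.card K : ℝ) = Real.exp d := by
        rw [hd, Real.exp_log (by exact_mod_cast hKpos)]
      have h2 : ((B : ℝ) ^ (-cc)) ^ j = Real.exp (-(cc * (j * Real.log B))) := by
        rw [← Real.rpow_natCast, ← Real.rpow_mul hB0.le, Real.rpow_def_of_pos hB0]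
        congr 1
        ring
      rw [h1, h2, ← Real.exp_add]
      have h3 : ℓ / 8 - Real.log ℓ ≤ j * Real.log B := by nlinarith
      have h4 : d + -(cc * (j * Real.log B)) ≤ -3 := by
        have h5 := g.e6
        have h6 := mul_le_mul_of_nonneg_left h3 hcc0.le
        linarith
      refine (Real.exp_le_exp.mpr h4).trans ?_
      have h7 : (16 : ℝ) ≤ Real.exp 3 := by
        have h8 := Real.exp_one_gt_d9
        have h9 : Real.exp 3 = Real.exp 1 ^ 3 := by
          rw [← Real.exp_nat_mul]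
          norm_num
        rw [h9]
        calc (16 : ℝ) ≤ 2.7 ^ 3 := by norm_num
          _ ≤ Real.exp 1 ^ 3 := by
            gcongr
            linarith
      rw [Real.exp_neg, ← one_div]
      exact one_div_le_one_div_of_le (by norm_num) h7

end Pool.Agent.H.MP_3e6494_nt.Str
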