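import Pool.Agent.H.MP_3e6494_nt.h26.RelB2

/-!
The relation bound for all subgroups of index up to `exp (c log q logloglog q / loglog q)`.
-/

set_option autoImplicit false
set_option linter.unusedVariables false

open Finset Filter Topology

namespace Pool.Agent.H.MP_3e6494_nt.Str

/-- numerical facts about `ℓ = log q` -/
structure PreC (n m : ℕ) (cc δ c : ℝ) (ℓ : ℝ) : Prop where
  big : 16 ≤ ℓ
  l1 : 1 ≤ Real.log (Real.log ℓ)
  l2 : 1 ≤ Real.log ℓ
  e2 : 2 * √ℓ ≤ (ℓ ^ ((n : ℝ) / (m + 1))) ^ (1 / 2 - cc)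
  e3 : 68 ≤ √ℓ ^ (cc / 2)
  e4 : (cc / 8) * (Real.log (ℓ / (cc / 8) + 1) + 2 * Real.log (Real.log ℓ)) <
    cc / 4 * Real.log ℓ - Real.log 2
  e5 : 2 * √ℓ ≤ δ / 2 * ℓ
  e6 : c * (ℓ * Real.log (Real.log ℓ) / Real.log ℓ) + 3 ≤ cc * (ℓ / 8 - Real.log ℓ)

theorem ev_PreC {n m : ℕ} (hmn : m + 2 ≤ n) {δ c : ℝ} (hδ : 0 < δ) (hc : 0 < c) :
    ∀ᶠ ℓ : ℝ in atTop, PreC n m (1 / (4 * ((m : ℝ) + 2))) δ c ℓ := by
  set cc : ℝ := 1 / (4 * ((m : ℝ) + 2)) with hcc
  have hm0 : (0 : ℝ) ≤ m := Nat.cast_nonneg m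
  have hcc0 : 0 < cc := by positivity
  have hcc1 : cc ≤ 1 / 8 := by
    rw [hcc, div_le_div_iff₀ (by positivity) (by norm_num)]
    linarith
  have hl2 := Real.log_two_gt_d9
  have hl2' := Real.log_two_lt_d9
  set x : ℝ := 1 / (4 * ((m : ℝ) + 1)) with hx
  have hx0 : 0 < x := by positivity
  set D : ℝ := Real.log (1 / (cc / 8) + 1) with hD
  have hD0 : 0 ≤ D := Real.log_nonneg (by
    have : 0 < 1 / (cc / 8) := by positivity
    linarith)
  have hll : ∀ {a : ℝ}, 0 < a → ∀ᶠ ℓ : ℝ in atTop, Real.log (Real.log ℓ) ≤ a * Real.log ℓ := by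
    intro a ha
    have h1 := Real.tendsto_log_atTop.eventually (ev_log ha one_pos)
    filter_upwards [h1] with ℓ h
    rwa [Real.rpow_one] at h
  -- the list of elementary facts
  filter_upwards [eventually_ge_atTop (16 : ℝ), ev_logc (Real.exp 1), ev_pow 2 hx0,
    ev_pow 68 (show 0 < cc / 4 by positivity),
    ev_logc (2 * D + 16 / cc),
    ev_pow (4 / δ) (show (0 : ℝ) < 1 / 2 by norm_num),
    hll (show (0 : ℝ) < 1 / 8 by norm_num), hll (show 0 < cc / (32 * c) by positivity),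
    ev_log (c := 1 / 32) (a := 1) (by norm_num) (by norm_num),
    eventually_ge_atTop (48 / cc)] with ℓ f1 f2 f3 f4 f5 f6 f7 f7' f8 f9
  have hℓ0 : 0 < ℓ := lt_of_lt_of_le (by norm_num) f1
  have hL : 0 < Real.log ℓ := lt_of_lt_of_le (Real.exp_pos 1) f2
  have hL1 : 1 ≤ Real.log ℓ := by
    have := Real.exp_one_gt_d9
    linarith
  have hLL : 1 ≤ Real.log (Real.log ℓ) := by
    rw [← Real.log_exp 1]
    exact Real.log_le_log (Real.exp_pos 1) f2
  rw [Real.rpow_one] at f8
  refine ⟨f1, hLL, hL1, ?_, ?_, ?_, ?_, ?_⟩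
  · rw [← Real.rpow_mul hℓ0.le]
    have h1 : (1 / 2 : ℝ) + x ≤ (n : ℝ) / (m + 1) * (1 / 2 - cc) := by
      have h2 : ((m : ℝ) + 2) / (m + 1) ≤ (n : ℝ) / (m + 1) := by
        gcongr
        exact_mod_cast hmn
      have h3 : 0 ≤ 1 / 2 - cc := by linarith
      refine le_trans (le_of_eq ?_) (mul_le_mul_of_nonneg_right h2 h3)
      rw [hx, hcc]
      field_simp
      ring
    calc 2 * √ℓ ≤ ℓ ^ x * ℓ ^ (1 / 2 : ℝ) := by
          rw [← Real.sqrt_eq_rpow]
          gcongr
      _ = ℓ ^ (1 / 2 + x) := by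
          rw [← Real.rpow_add hℓ0]
          congr 1
          ring
      _ ≤ _ := Real.rpow_le_rpow_of_exponent_le (by linarith) h1
  · rw [Real.sqrt_eq_rpow, ← Real.rpow_mul hℓ0.le]
    refine f4.trans (le_of_eq ?_)
    congr 1
    ring
  · have h1 : Real.log (ℓ / (cc / 8) + 1) ≤ Real.log ℓ + D := by
      rw [hD, ← Real.log_mul hℓ0.ne' (by positivity)]
      apply Real.log_le_log (by positivity)
      have : ℓ / (cc / 8) = ℓ * (1 / (cc / 8)) := by ring
      rw [this]
      nlinarith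
    have h2 : (cc / 8) * (Real.log (ℓ / (cc / 8) + 1) + 2 * Real.log (Real.log ℓ)) ≤
        (cc / 8) * (Real.log ℓ + D + 2 * (1 / 8 * Real.log ℓ)) := by
      gcongr
    refine lt_of_le_of_lt h2 ?_
    have h3 : 16 ≤ cc * (Real.log ℓ - 2 * D) := by
      have : 16 / cc ≤ Real.log ℓ - 2 * D := by linarith
      rwa [div_le_iff₀' hcc0] at this
    have h4 : 0 ≤ cc * D := by positivity
    have h5 : 0 < cc * Real.log ℓ := by positivity
    nlinarith
  · rw [← Real.sqrt_eq_rpow] at f6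
    have hs : 0 < √ℓ := Real.sqrt_pos.mpr hℓ0
    have hss : √ℓ * √ℓ = ℓ := Real.mul_self_sqrt hℓ0.le
    rw [div_le_iff₀ hδ] at f6
    nlinarith
  · rw [div_le_iff₀ hcc0] at f9
    have h1 : c * (ℓ * Real.log (Real.log ℓ) / Real.log ℓ) ≤ cc * ℓ / 32 := by
      rw [← mul_div_assoc, div_le_iff₀ hL]
      calc c * (ℓ * Real.log (Real.log ℓ)) ≤ c * (ℓ * (cc / (32 * c) * Real.log ℓ)) := by gcongr
        _ = cc * ℓ / 32 * Real.log ℓ := by
            field_simp
    nlinarith

/-- **The relation bound** for all subgroups of index up to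
`exp (c log q logloglog q / loglog q)`. -/
theorem exists_relBound3 {n m : ℕ} (hmn : m + 2 ≤ n) {δ : ℝ} (hδ : 0 < δ) :
    ∃ c : ℝ, 0 < c ∧ ∃ q₀ : ℕ, ∀ (q : ℕ) [Fact q.Prime], q₀ ≤ q → ∀ K : Subgroup (ZMod q)ˣ,
      Real.log (Nat.card K) ≤ c * (Real.log q * Real.log (Real.log (Real.log q)) /
        Real.log (Real.log q)) →
      ∃ E : Finset ℕ, (∀ p ∈ E, p.Prime ∧ p < q) ∧
        (E.card : ℝ) ≤ δ * Real.log q ∧ RelBound q K E n m := by
  set cc : ℝ := 1 / (4 * ((m : ℝ) + 2)) with hcc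
  have hm0 : (0 : ℝ) ≤ m := Nat.cast_nonneg m
  have hcc0 : 0 < cc := by positivity
  have hcc1 : cc ≤ 1 / 8 := by
    rw [hcc, div_le_div_iff₀ (by positivity) (by norm_num)]
    linarith
  set c : ℝ := min (cc / 256) (min (δ * cc / 64) 1) with hc
  have hc0 : 0 < c := lt_min (by positivity) (lt_min (by positivity) one_pos)
  have hc1 : c ≤ cc / 256 := min_le_left _ _
  have hc2 : c ≤ δ * cc / 64 := (min_le_right _ _).trans (min_le_left _ _)
  have hc3 : c ≤ 1 := (min_le_right _ _).trans (min_le_right _ _)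
  refine ⟨c, hc0, ?_⟩
  have hlog : Tendsto (fun q : ℕ => Real.log (q : ℝ)) atTop atTop :=
    Real.tendsto_log_atTop.comp tendsto_natCast_atTop_atTop
  obtain ⟨q₀, hq₀⟩ := Filter.eventually_atTop.mp (hlog.eventually (ev_PreC hmn hδ hc0))
  refine ⟨q₀, ?_⟩
  intro q hq hqq K hK
  have g : PreC n m cc δ c (Real.log q) := hq₀ q hqq
  set ℓ := Real.log q with hℓ
  have hℓ0 : 0 < ℓ := by linarith [g.big]
  have hL : 0 < Real.log ℓ := by linarith [g.l2]
  have hLL : 0 < Real.log (Real.log ℓ) := by linarith [g.l1]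
  have hLL2 : Real.log (Real.log ℓ) ≤ Real.log ℓ := (Real.log_le_sub_one_of_pos hL).trans (by linarith)
  have hq0 : (0 : ℝ) < q := by exact_mod_cast hq.out.pos
  set d : ℝ := Real.log (Nat.card K) with hd
  have hKpos : 0 < Nat.card K := Nat.card_pos
  have hd0 : 0 ≤ d := Real.log_natCast_nonneg _
  have hl2 := Real.log_two_gt_d9
  have hl2' := Real.log_two_lt_d9
  set lam : ℝ := cc / 8 * Real.log (Real.log ℓ) with hlam
  have hlam0 : 0 < lam := by positivity
  have hlam1 : cc / 8 ≤ lam := by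
    rw [hlam]
    have := g.l1
    nlinarith
  have hdl : d ≤ ℓ := by
    refine hK.trans ?_
    calc c * (ℓ * Real.log (Real.log ℓ) / Real.log ℓ)
        ≤ 1 * (ℓ * Real.log (Real.log ℓ) / Real.log ℓ) := by gcongr
      _ ≤ ℓ := by
        rw [one_mul, div_le_iff₀ hL]
        gcongr
  -- the base
  set B : ℕ := ⌈√ℓ⌉₊ with hB
  have hs4 : 4 ≤ √ℓ := by
    rw [show (4 : ℝ) = √16 by
      rw [show (16 : ℝ) = 4 ^ 2 by norm_num, Real.sqrt_sq (by norm_num)]]
    exact Real.sqrt_le_sqrt g.big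
  have hBl : √ℓ ≤ B := Nat.le_ceil _
  have hBu : (B : ℝ) ≤ 2 * √ℓ := by
    have := (Nat.ceil_lt_add_one (Real.sqrt_nonneg ℓ)).le
    rw [← hB] at this
    linarith
  have hB0 : (0 : ℝ) < B := by linarith
  have hB2 : 2 ≤ B := by
    have : (2 : ℝ) ≤ B := by linarith
    exact_mod_cast this
  have hlogB : Real.log B ≤ Real.log ℓ := by
    apply Real.log_le_log hB0
    have hss : √ℓ * √ℓ = ℓ := Real.mul_self_sqrt hℓ0.le
    nlinarith
  have hlogB' : Real.log ℓ / 2 ≤ Real.log B := by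
    rw [← Real.log_sqrt hℓ0.le]
    exact Real.log_le_log (by linarith) hBl
  have hlogB0 : 0 < Real.log B := by linarith
  -- the growth
  set gg : ℝ := (B : ℝ) ^ (cc / 2) / 2 with hgg
  have hBc : 68 ≤ (B : ℝ) ^ (cc / 2) :=
    g.e3.trans (Real.rpow_le_rpow (Real.sqrt_nonneg _) hBl (by positivity))
  have hg1 : 1 < gg := by rw [hgg]; linarith
  have hlogg : cc / 4 * Real.log ℓ - Real.log 2 ≤ Real.log gg := by
    rw [hgg, Real.log_div (by positivity) (by norm_num), Real.log_rpow hB0]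
    nlinarith
  -- the number of rounds
  set R : ℕ := ⌈Real.log (ℓ / (cc / 8) + 1) / Real.log (Real.log ℓ)⌉₊ with hR
  have hR1 : ((R : ℝ) + 1) * lam < Real.log gg := by
    refine lt_of_lt_of_le ?_ hlogg
    refine lt_of_le_of_lt ?_ g.e4
    have h1 : (R : ℝ) ≤ Real.log (ℓ / (cc / 8) + 1) / Real.log (Real.log ℓ) + 1 := by
      refine (Nat.ceil_lt_add_one ?_).le
      apply div_nonneg _ hLL.le
      apply Real.log_nonneg
      have : 0 < ℓ / (cc / 8) := by positivity
      linarith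
    calc ((R : ℝ) + 1) * lam ≤
        (Real.log (ℓ / (cc / 8) + 1) / Real.log (Real.log ℓ) + 1 + 1) * lam := by gcongr
      _ = _ := by
        rw [hlam]
        field_simp
        ring
  have hR2 : d / lam + 1 ≤ Real.log ℓ ^ R := by
    have h1 : d / lam + 1 ≤ ℓ / (cc / 8) + 1 := by gcongr
    refine h1.trans ?_
    have h2 : Real.log (ℓ / (cc / 8) + 1) ≤ R * Real.log (Real.log ℓ) := by
      rw [← div_le_iff₀ hLL]
      exact Nat.le_ceil _
    rw [← Real.log_pow] at h2
    exact (Real.log_le_log_iff (by positivity) (by positivity)).mp h2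
  -- the structure lemma
  obtain ⟨V, hV1, hV2, hV3⟩ := structure_lemma2 K (smallPr B) lam (2 * Real.log ℓ) gg
    (Real.log ℓ) R hlam0 (by positivity) hg1 g.l2 hR1 hR2 (by
      have h1 : d ≤ cc / 256 * (ℓ * Real.log (Real.log ℓ) / Real.log ℓ) := hK.trans (by gcongr)
      calc 8 * (d * (2 * Real.log ℓ / lam)) ≤
          8 * (cc / 256 * (ℓ * Real.log (Real.log ℓ) / Real.log ℓ) * (2 * Real.log ℓ / lam)) := by
            gcongr
        _ = ℓ / 2 := by
          rw [hlam]
          field_simp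
          norm_num
        _ ≤ Real.log q := by rw [← hℓ]; linarith)
  refine ⟨smallPr B ∪ V, ?_, ?_, ?_⟩
  · intro p hp
    rw [Finset.mem_union] at hp
    rcases hp with hp | hp
    · rw [mem_smallPr] at hp
      refine ⟨hp.1, lt_of_le_of_lt hp.2 ?_⟩
      have h1 : (B : ℝ) < q := by
        have h2 : Real.log B < Real.log q := by
          rw [← hℓ]
          refine lt_of_le_of_lt hlogB ?_
          have := Real.log_lt_sub_one_of_pos hℓ0 (by linarith [g.big])
          linarith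
        exact (Real.log_lt_log_iff hB0 hq0).mp h2
      exact_mod_cast h1
    · exact hV1 p hp
  · have h1 : ((smallPr B ∪ V).card : ℝ) ≤ (smallPr B).card + V.card := by
      exact_mod_cast Finset.card_union_le _ _
    have h2 := card_smallPr B
    have h3 : (2 * Real.log ℓ / lam) * d ≤ δ / 2 * ℓ := by
      calc (2 * Real.log ℓ / lam) * d ≤
          (2 * Real.log ℓ / lam) * (δ * cc / 64 * (ℓ * Real.log (Real.log ℓ) / Real.log ℓ)) := by
            gcongr
            exact hK.trans (by gcongr)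
        _ = δ / 4 * ℓ := by
            rw [hlam]
            field_simp
            norm_num
        _ ≤ δ / 2 * ℓ := by gcongr; norm_num
    have h4 := g.e5
    linarith
  · have hl0 : 0 < Real.log q := by rw [← hℓ]; exact hℓ0
    refine relBound_core (cc := cc) (μ := 2 * Real.log ℓ) (g := gg) hcc0 (by linarith) hB2 hl0
      (by rw [← hℓ]; exact g.e2) hV3 (by linarith) (by positivity) ?_ ?_
    · have h1 : (B : ℝ) ^ cc = (B : ℝ) ^ (cc / 2) * (B : ℝ) ^ (cc / 2) := by
        rw [← Real.rpow_add hB0]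
        congr 1
        ring
      rw [h1, hgg]
      nlinarith
    · intro j hj
      rw [← hℓ] at hj
      have h1 : (Nat.card K : ℝ) = Real.exp d := by
        rw [hd, Real.exp_log (by exact_mod_cast hKpos)]
      have h2 : ((B : ℝ) ^ (-cc)) ^ j = Real.exp (-(cc * (j * Real.log B))) := by
        rw [← Real.rpow_natCast, ← Real.rpow_mul hB0.le, Real.rpow_def_of_pos hB0]
        congr 1
        ring
      rw [h1, h2, ← Real.exp_add]
      have h3 : ℓ / 8 - Real.log ℓ ≤ j * Real.log B := by nlinarith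
      have h4 : d + -(cc * (j * Real.log B)) ≤ -3 := by
        have h5 := g.e6
        have h6 := mul_le_mul_of_nonneg_left h3 hcc0.le
        linarith
      refine (Real.exp_le_exp.mpr h4).trans ?_
      have h7 : (16 : ℝ) ≤ Real.exp 3 := by
        have h8 := Real.exp_one_gt_d9
        have h9 : Real.exp 3 = Real.exp 1 ^ 3 := by
          rw [← Real.exp_nat_mul]
          norm_num
        rw [h9]
        calc (16 : ℝ) ≤ 2.7 ^ 3 := by norm_num
          _ ≤ Real.exp 1 ^ 3 := by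
            gcongr
            linarith
      rw [Real.exp_neg, ← one_div]
      exact one_div_le_one_div_of_le (by norm_num) h7

end Pool.Agent.H.MP_3e6494_nt.Str
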