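import Pool.Agent.H.MP_3e6494_nt.h26.Ext2
import Pool.Agent.H.MP_3e6494_nt.helper15.Str

/-!
The structure lemma for short relations modulo a small subgroup, second form.
-/

set_option autoImplicit false
set_option linter.unusedVariables false

open Finset
open scoped Pointwise

namespace Pool.Agent.H.MP_3e6494_nt.Str

variable {q : ℕ} [hq : Fact q.Prime]

/-- **The structure lemma.** -/
theorem structure_lemma2 (K : Subgroup (ZMod q)ˣ) (E0 : Finset ℕ) (lam μ g ρ : ℝ) (R : ℕ)
    (hlam : 0 < lam) (hμ : 0 ≤ μ) (hg : 1 < g) (hρ : 1 ≤ ρ) (hR : (R + 1) * lam < Real.log g)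
    (hρR : Real.log (Nat.card K) / lam + 1 ≤ ρ ^ R)
    (hL : 8 * (Real.log (Nat.card K) * (μ / lam)) ≤ Real.log q) :
    ∃ V : Finset ℕ, (∀ p ∈ V, p.Prime ∧ p < q) ∧
      (V.card : ℝ) ≤ (2 * ρ / lam) * Real.log (Nat.card K) ∧
      ∀ (F : Finset (ℕ × ℕ)) (t Z : ℕ), 1 ≤ t → (∀ X ∈ F, 0 < X.1 ∧ 0 < X.2) →
        (∀ X ∈ F, Nat.Coprime X.1 X.2) → (∀ X ∈ F, Rel K X.1 X.2) →
        (∀ X ∈ F, ArithmeticFunction.cardFactors X.1 + ArithmeticFunction.cardFactors X.2 ≤ t) →
        (∀ X ∈ F, X.1 ≤ Z ∧ X.2 ≤ Z) → (∀ X ∈ F, ∀ p ∈ E0 ∪ V, p ∉ pr X) →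
        Real.log Z ≤ t * μ → 8 * Real.log Z ≤ Real.log q → 1 ≤ Z → (F.card : ℝ) < (2 * g) ^ t := by
  classical
  have hq1 : 1 < q := hq.out.one_lt
  have hq0 : (0 : ℝ) < q := by exact_mod_cast hq.out.pos
  have hlq : 0 < Real.log q := Real.log_pos (by exact_mod_cast hq1)
  set d : ℝ := Real.log (Nat.card K) with hd
  have hKpos : 0 < Nat.card K := Nat.card_pos
  have hK0 : (0 : ℝ) < Nat.card K := by exact_mod_cast hKpos
  have hd0 : 0 ≤ d := Real.log_natCast_nonneg _
  set M1 : ℝ := μ / lam with hM1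
  set M2 : ℝ := 2 * ρ / lam with hM2
  have hM10 : 0 ≤ M1 := by positivity
  have hM20 : 0 < M2 := by positivity
  -- a maximal cluster
  set G : Finset ℕ := (Finset.range (Nat.card K + 1)).filter fun N =>
    ∃ V A, Obj K E0 M1 M2 V A ∧ A.card = N with hG
  have hGne : G.Nonempty := by
    refine ⟨1, ?_⟩
    rw [hG, Finset.mem_filter, Finset.mem_range]
    exact ⟨by omega, ∅, {(1, 1)}, Obj.trivial K E0 M1 M2, by simp⟩
  have hmax := G.max'_mem hGne
  set N := G.max' hGne with hN
  rw [hG, Finset.mem_filter, Finset.mem_range] at hmax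
  obtain ⟨hNK, V, A, hO, hAN⟩ := hmax
  have hlogle : ∀ n : ℕ, 0 < n → n ≤ Nat.card K → Real.log n ≤ d := by
    intro n hn hnK
    apply Real.log_le_log (by exact_mod_cast hn)
    exact_mod_cast hnK
  have hAK : A.card ≤ Nat.card K := by omega
  have hA0 : 0 < A.card := hO.ne.card_pos
  refine ⟨V, fun p hp => ⟨(hO.prime p hp).1, (hO.prime p hp).2.1⟩, ?_, ?_⟩
  · exact hO.cardV.trans (mul_le_mul_of_nonneg_left (hlogle _ hA0 hAK) hM20.le)
  intro F t Z ht1 hpos hcop hrel hΩ hZ hE hZμ hZq hZ1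
  by_contra hcon
  push Not at hcon
  have ht0 : (0 : ℝ) < t := by exact_mod_cast ht1
  have ht1' : (1 : ℝ) ≤ t := by exact_mod_cast ht1
  have hZ0 : (0 : ℝ) < Z := by exact_mod_cast hZ1
  have hlZ : 0 ≤ Real.log Z := Real.log_natCast_nonneg _
  -- a compatible subfamily
  obtain ⟨P, hP⟩ := exists_compat F t hcop (by
    intro x hx
    exact (Nat.add_le_add (List.toFinset_card_le _) (List.toFinset_card_le _)).trans (hΩ x hx))
  set S := F.filter fun x => Compat P x with hS
  have hScard : g ^ t ≤ (S.card : ℝ) := by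
    have h1 : (2 * g) ^ t = 2 ^ t * g ^ t := mul_pow _ _ _
    have hP' : (F.card : ℝ) ≤ 2 ^ t * S.card := by exact_mod_cast hP
    have h2 : (2 : ℝ) ^ t * g ^ t ≤ 2 ^ t * S.card := by
      rw [← h1]
      exact hcon.trans hP'
    exact le_of_mul_le_mul_left h2 (by positivity)
  have hSF : ∀ X ∈ S, X ∈ F ∧ Compat P X := fun X hX => Finset.mem_filter.mp hX
  have hSpos : ∀ X ∈ S, 0 < X.1 ∧ 0 < X.2 := fun X hX => hpos X (hSF X hX).1
  -- parameters of the extraction
  set b : ℝ := Real.exp (t * lam) with hb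
  have hb1 : 1 < b := by
    rw [hb]
    exact Real.one_lt_exp_iff.mpr (by positivity)
  set k : ℕ := ⌊d / (t * lam)⌋₊ + 1 with hk
  have hk1 : d / (t * lam) < k := by
    rw [hk]
    push_cast
    exact Nat.lt_floor_add_one _
  have hk2 : (k : ℝ) ≤ d / (t * lam) + 1 := by
    rw [hk]
    push_cast
    have := Nat.floor_le (show 0 ≤ d / (t * lam) by positivity)
    linarith
  have hDk : (Nat.card K : ℝ) < b ^ k := by
    rw [hb, ← Real.exp_nat_mul, ← Real.exp_log hK0]
    apply Real.exp_lt_exp.mpr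
    rw [div_lt_iff₀ (by positivity)] at hk1
    linarith
  have hkρ : (k : ℝ) ≤ ρ ^ R := by
    refine hk2.trans (le_trans ?_ hρR)
    have : d / (t * lam) ≤ d / lam := by
      apply div_le_div_of_nonneg_left hd0 hlam
      nlinarith
    linarith
  have hZk : ∀ j ≤ k, Z ^ j * Z ^ j < q := by
    intro j hj
    have h1 : Real.log ((Z : ℝ) ^ j * (Z : ℝ) ^ j) < Real.log q := by
      rw [Real.log_mul (by positivity) (by positivity), Real.log_pow]
      have h2 : (j : ℝ) * Real.log Z ≤ k * Real.log Z := by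
        apply mul_le_mul_of_nonneg_right _ hlZ
        exact_mod_cast hj
      have h3 : (k : ℝ) * Real.log Z ≤ (d / (t * lam) + 1) * Real.log Z :=
        mul_le_mul_of_nonneg_right hk2 hlZ
      have h4 : d / (t * lam) * Real.log Z ≤ d * M1 := by
        calc d / (t * lam) * Real.log Z ≤ d / (t * lam) * (t * μ) := by gcongr
          _ = d * M1 := by
              rw [hM1]
              field_simp
      nlinarith
    have h5 := (Real.log_lt_log_iff (by positivity) hq0).mp h1
    exact_mod_cast h5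
  have hTj : ∀ T ⊆ S, ∀ j ≤ k, (T ^ j).card ≤ Nat.card K := by
    intro T hT j hj
    have hTpos : ∀ X ∈ T, 0 < X.1 ∧ 0 < X.2 := fun X hX => hSpos X (hT hX)
    have c1 := pow_pos' T hTpos j
    have c2 := compat_pow T P hTpos (fun X hX => (hSF X (hT hX)).2) j
    refine card_le_K K (T ^ j) (Z ^ j) c1 (fun X hX => compat_coprime (c1 X hX).1.ne'
      (c1 X hX).2.ne' (c2 X hX)) (Rel_pow T (fun X hX => hrel X (hSF X (hT hX)).1) j)
      (le_pow' T Z (fun X hX => hZ X (hSF X (hT hX)).1) j) (hZk j hj)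
  have hSb : b ^ (R + 1) < S.card := by
    have h1 : b ^ (R + 1) < g ^ t := by
      rw [hb, ← Real.exp_nat_mul]
      have h2 : g ^ t = Real.exp (t * Real.log g) := by
        rw [Real.exp_nat_mul, Real.exp_log (by linarith)]
      rw [h2]
      apply Real.exp_lt_exp.mpr
      push_cast
      calc ((R : ℝ) + 1) * (t * lam) = t * ((R + 1) * lam) := by ring
        _ < t * Real.log g := mul_lt_mul_of_pos_left hR ht0
    exact lt_of_lt_of_le h1 hScard
  obtain ⟨T, hT, j, hj1, hjk, hbj, V', hsup, hV', hcV'⟩ := extract2 S hSpos t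
    (fun X hX => hΩ X (hSF X hX).1) b (Nat.card K) ρ hb1 hρ k R
    (fun T hT => by exact_mod_cast hTj T hT k le_rfl) hDk hkρ hSb
  -- the new cluster
  have hTpos : ∀ X ∈ T, 0 < X.1 ∧ 0 < X.2 := fun X hX => hSpos X (hT hX)
  have c1 := pow_pos' T hTpos j
  have c2 := compat_pow T P hTpos (fun X hX => (hSF X (hT hX)).2) j
  have hbj1 : (1 : ℝ) < b ^ j := one_lt_pow₀ hb1 (by omega)
  have hTj0 : 0 < (T ^ j).card := by
    have : (0 : ℝ) < (T ^ j).card := by linarith
    exact_mod_cast this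
  have hlogT : (j : ℝ) * (t * lam) ≤ Real.log ((T ^ j).card : ℝ) := by
    have h1 := Real.log_le_log (by positivity) hbj
    rwa [Real.log_pow, hb, Real.log_exp] at h1
  have hVE : ∀ p ∈ V', p ∉ E0 ∪ V := by
    intro p hp hpE
    obtain ⟨Y, hY, hpY⟩ := hV' p hp
    exact hE Y (hSF Y hY).1 p hpE hpY
  have hO' : Obj K E0 M1 M2 V' (T ^ j) := by
    constructor
    · intro p hp
      obtain ⟨Y, hY, hpY⟩ := hV' p hp
      have hYF := (hSF Y hY).1
      have hYpos := hpos Y hYF
      have hYZ := hZ Y hYF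
      have hZltq : Z < q := by
        have := hZk 1 (by omega)
        rw [pow_one] at this
        nlinarith
      unfold pr at hpY
      rw [Finset.mem_union] at hpY
      have hpp : p.Prime ∧ p ≤ Z := by
        rcases hpY with h | h
        · exact ⟨Nat.prime_of_mem_primeFactors h,
            (Nat.le_of_dvd hYpos.1 (Nat.dvd_of_mem_primeFactors h)).trans hYZ.1⟩
        · exact ⟨Nat.prime_of_mem_primeFactors h,
            (Nat.le_of_dvd hYpos.2 (Nat.dvd_of_mem_primeFactors h)).trans hYZ.2⟩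
      refine ⟨hpp.1, lt_of_le_of_lt hpp.2 hZltq, fun h => ?_⟩
      exact hVE p hp (Finset.mem_union_left _ h)
    · exact Finset.card_pos.mp hTj0
    · exact c1
    · exact fun X hX => compat_coprime (c1 X hX).1.ne' (c1 X hX).2.ne' (c2 X hX)
    · exact Rel_pow T (fun X hX => hrel X (hSF X (hT hX)).1) j
    · intro a ha p hp
      obtain ⟨Y, hY, hpY⟩ := pr_pow T hTpos j a ha p hp
      exact hsup Y hY hpY
    · intro a ha
      have h1 := le_pow' T Z (fun X hX => hZ X (hSF X (hT hX)).1) j a ha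
      have h2 := c1 a ha
      have key : (j : ℝ) * Real.log Z ≤ M1 * Real.log ((T ^ j).card : ℝ) := by
        calc (j : ℝ) * Real.log Z ≤ j * (t * μ) := by gcongr
          _ = M1 * (j * (t * lam)) := by
              rw [hM1]
              field_simp
          _ ≤ _ := mul_le_mul_of_nonneg_left hlogT hM10
      constructor
      · refine le_trans ?_ key
        rw [← Real.log_pow]
        apply Real.log_le_log (by exact_mod_cast h2.1)
        exact_mod_cast h1.1
      · refine le_trans ?_ key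
        rw [← Real.log_pow]
        apply Real.log_le_log (by exact_mod_cast h2.2)
        exact_mod_cast h1.2
    · calc (V'.card : ℝ) ≤ 2 * ρ * j * t := hcV'
        _ = M2 * (j * (t * lam)) := by
            rw [hM2]
            field_simp
        _ ≤ _ := mul_le_mul_of_nonneg_left hlogT hM20.le
  have hdisj : Disjoint V V' := by
    rw [Finset.disjoint_right]
    intro p hp hpV
    exact hVE p hp (Finset.mem_union_right _ hpV)
  obtain ⟨hcard, hO''⟩ := hO.mul hO' hdisj
  have hTK : (T ^ j).card ≤ Nat.card K := hTj T hT j hjk.le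
  have hprod : (A * T ^ j).card ≤ Nat.card K := by
    apply hO''.card_le
    have h1 : Real.log ((A * T ^ j).card : ℝ) = Real.log A.card + Real.log ((T ^ j).card : ℝ) := by
      rw [hcard, Nat.cast_mul, Real.log_mul (by exact_mod_cast hA0.ne') (by exact_mod_cast hTj0.ne')]
    rw [h1]
    have h2 := hlogle _ hA0 hAK
    have h3 := hlogle _ hTj0 hTK
    have h4 : M1 * (Real.log A.card + Real.log ((T ^ j).card : ℝ)) ≤ M1 * (d + d) :=
      mul_le_mul_of_nonneg_left (by linarith) hM10
    have h5 : 8 * (d * M1) ≤ Real.log q := hL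
    nlinarith
  have hmem : (A * T ^ j).card ∈ G := by
    rw [hG, Finset.mem_filter, Finset.mem_range]
    exact ⟨by omega, V ∪ V', A * T ^ j, hO'', rfl⟩
  have hle := G.le_max' _ hmem
  rw [← hN, ← hAN, hcard] at hle
  have h2 : 2 ≤ (T ^ j).card := by
    have : (1 : ℝ) < (T ^ j).card := by linarith
    exact_mod_cast this
  nlinarith

end Pool.Agent.H.MP_3e6494_nt.Str
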